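import Mathlib
import Pool.Agent.Helper389_End.Pl

set_option autoImplicit false

/-!
An analytic lemma on families of integral functionals which are dual to each other.
-/

namespace Pool.Agent.Helper343_Dio

open Filter Topology Pool.Agent.Helper389_End

variable {κ : Type} [Fintype κ]

/-- the real vector of an integral one -/
abbrev re (p : κ → ℤ) : κ → ℝ := fun i => (p i : ℝ)

section mx

/-- the maximum of the functionals in `D` and `0` -/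
noncomputable def mx (D : Finset (κ → ℤ)) (x : κ → ℝ) : ℝ :=
  (insert 0 D).sup' (Finset.insert_nonempty _ _) fun d => ip x d

theorem ip_le_mx {D : Finset (κ → ℤ)} {d : κ → ℤ} (hd : d ∈ D) (x : κ → ℝ) :
    ip x d ≤ mx D x :=
  Finset.le_sup' (fun d => ip x d) (Finset.mem_insert_of_mem hd)

theorem mx_nonneg (D : Finset (κ → ℤ)) (x : κ → ℝ) : 0 ≤ mx D x := by
  have := Finset.le_sup' (fun d => ip x d) (Finset.mem_insert_self (0 : κ → ℤ) D)
  rwa [ip_zero] at this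

theorem mx_le {D : Finset (κ → ℤ)} {x : κ → ℝ} {c : ℝ} (hc : 0 ≤ c)
    (h : ∀ d ∈ D, ip x d ≤ c) : mx D x ≤ c := by
  refine Finset.sup'_le _ _ fun d hd => ?_
  rcases Finset.mem_insert.mp hd with rfl | hd
  · rwa [ip_zero]
  · exact h d hd

theorem exists_mx (D : Finset (κ → ℤ)) (x : κ → ℝ) :
    mx D x = 0 ∨ ∃ d ∈ D, mx D x = ip x d := by
  obtain ⟨d, hd, h⟩ := Finset.exists_mem_eq_sup' (Finset.insert_nonempty (0 : κ → ℤ) D)
    (fun d => ip x d)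
  rcases Finset.mem_insert.mp hd with rfl | hd
  · left
    unfold mx
    rw [h, ip_zero]
  · exact Or.inr ⟨d, hd, h⟩

theorem continuous_mx (D : Finset (κ → ℤ)) : Continuous (mx D) := by
  unfold mx
  exact Continuous.finset_sup'_apply _ fun d _ => continuous_ip d

theorem mx_smul (D : Finset (κ → ℤ)) (x : κ → ℝ) {c : ℝ} (hc : 0 ≤ c) :
    mx D (c • x) = c * mx D x := by
  apply le_antisymm
  · refine mx_le (mul_nonneg hc (mx_nonneg D x)) fun d hd => ?_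
    rw [ip_smul]
    exact mul_le_mul_of_nonneg_left (ip_le_mx hd x) hc
  · rcases exists_mx D x with h | ⟨d, hd, h⟩
    · rw [h, mul_zero]
      exact mx_nonneg _ _
    · rw [h, ← ip_smul]
      exact ip_le_mx hd _

theorem mx_add_le (D : Finset (κ → ℤ)) (x y : κ → ℝ) : mx D (x + y) ≤ mx D x + mx D y := by
  refine mx_le (add_nonneg (mx_nonneg _ _) (mx_nonneg _ _)) fun d hd => ?_
  rw [ip_add]
  exact add_le_add (ip_le_mx hd x) (ip_le_mx hd y)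

theorem mx_le_norm {D : Finset (κ → ℤ)} {c : ℝ} (hc : 0 ≤ c)
    (h : ∀ d ∈ D, ∑ j, |(d j : ℝ)| ≤ c) (y : κ → ℝ) : mx D y ≤ c * ‖y‖ := by
  refine mx_le (mul_nonneg hc (norm_nonneg _)) fun d hd => ?_
  refine (le_abs_self _).trans ((abs_ip_le y d ‖y‖ fun i => ?_).trans ?_)
  · exact norm_le_pi_norm y i
  · rw [mul_comm]
    exact mul_le_mul_of_nonneg_right (h d hd) (norm_nonneg _)

end mx

/-- two families of finite sets of integral functionals, indexed by the lattice points, which are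
dual to each other -/
structure Sys (κ : Type) [Fintype κ] where
  D : (κ → ℤ) → Finset (κ → ℤ)
  E : (κ → ℤ) → Finset (κ → ℤ)
  C : ℝ
  C_nonneg : 0 ≤ C
  bD : ∀ p, ∀ d ∈ D p, ∑ j, |(d j : ℝ)| ≤ C * ‖re p‖
  bE : ∀ p, ∀ d ∈ E p, ∑ j, |(d j : ℝ)| ≤ C * ‖re p‖
  nD : ∀ p, ∀ d ∈ D p, d = 0 ∨ ip (re p) d ≤ -1
  nE : ∀ p, ∀ d ∈ E p, d = 0 ∨ ip (re p) d ≤ -1
  dual : ∀ p x, mx (D p) (re x) = mx (E x) (re p)

/-- exchange of the two families -/
def Sys.swap (S : Sys κ) : Sys κ where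
  D := S.E
  E := S.D
  C := S.C
  C_nonneg := S.C_nonneg
  bD := S.bE
  bE := S.bD
  nD := S.nE
  nE := S.nD
  dual p x := (S.dual x p).symm

theorem Sys.self_D (S : Sys κ) (p : κ → ℤ) : mx (S.D p) (re p) = 0 := by
  refine le_antisymm (mx_le le_rfl fun d hd => ?_) (mx_nonneg _ _)
  rcases S.nD p d hd with rfl | h
  · rw [ip_zero]
  · linarith

theorem Sys.self_E (S : Sys κ) (p : κ → ℤ) : mx (S.E p) (re p) = 0 := S.swap.self_D p

theorem Sys.le_D (S : Sys κ) (p : κ → ℤ) (y : κ → ℝ) : mx (S.D p) y ≤ S.C * ‖re p‖ * ‖y‖ :=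
  mx_le_norm (mul_nonneg S.C_nonneg (norm_nonneg _)) (S.bD p) y

theorem Sys.le_E (S : Sys κ) (p : κ → ℤ) (y : κ → ℝ) : mx (S.E p) y ≤ S.C * ‖re p‖ * ‖y‖ :=
  S.swap.le_D p y

/-- the comparison lemma at lattice points -/
theorem Sys.compare_int (S : Sys κ) (a p q : κ → ℤ) {α β : ℝ} (hα : 0 ≤ α) (hβ : 0 ≤ β) :
    mx (S.D p) (re a) ≤ β * mx (S.D q) (re a) +
      S.C * ‖re a‖ * ‖re p - α • re a - β • re q‖ := by
  have h1 : re p = (α • re a + β • re q) + (re p - α • re a - β • re q) := by abel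
  calc mx (S.D p) (re a) = mx (S.E a) (re p) := S.dual p a
    _ = mx (S.E a) ((α • re a + β • re q) + (re p - α • re a - β • re q)) := by rw [← h1]
    _ ≤ (mx (S.E a) (α • re a) + mx (S.E a) (β • re q)) +
        mx (S.E a) (re p - α • re a - β • re q) :=
      (mx_add_le _ _ _).trans (add_le_add_left (mx_add_le _ _ _) _)
    _ ≤ _ := by
      rw [mx_smul _ _ hα, mx_smul _ _ hβ, S.self_E, mul_zero, zero_add, ← S.dual q a]
      exact add_le_add_right (S.le_E a _) _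

/-- the comparison lemma at the multiples of lattice points -/
theorem Sys.compare_rat (S : Sys κ) (a p q : κ → ℤ) {t : ℝ} (ht : 0 < t) {α β : ℝ}
    (hα : 0 ≤ α) (hβ : 0 ≤ β) :
    mx (S.D p) (t • re a) ≤ β * mx (S.D q) (t • re a) +
      S.C * ‖t • re a‖ * ‖re p - α • t • re a - β • re q‖ := by
  have h1 := S.compare_int a p q (mul_nonneg hα ht.le) hβ
  rw [mx_smul _ _ ht.le, mx_smul _ _ ht.le, norm_smul, Real.norm_eq_abs, abs_of_pos ht,
    smul_smul]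
  calc t * mx (S.D p) (re a) ≤ t * (β * mx (S.D q) (re a) +
      S.C * ‖re a‖ * ‖re p - (α * t) • re a - β • re q‖) := mul_le_mul_of_nonneg_left h1 ht.le
    _ = _ := by ring

omit [Fintype κ] in
/-- rational approximation -/
theorem exists_approx (a : κ → ℝ) : ∃ (t : ℕ → ℝ) (b : ℕ → κ → ℤ), (∀ n, 0 < t n) ∧
    Tendsto (fun n => t n • re (b n)) atTop (𝓝 a) := by
  refine ⟨fun n => 1 / ((n : ℝ) + 1), fun n i => ⌊((n : ℝ) + 1) * a i⌋, fun n => by positivity, ?_⟩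
  rw [tendsto_pi_nhds]
  intro i
  have h1 : ∀ n : ℕ, a i - 1 / ((n : ℝ) + 1) ≤ ((1 / ((n : ℝ) + 1)) •
      re (fun i => ⌊((n : ℝ) + 1) * a i⌋)) i := by
    intro n
    have h2 := Int.lt_floor_add_one (((n : ℝ) + 1) * a i)
    have h3 : (0 : ℝ) < (n : ℝ) + 1 := by positivity
    change _ ≤ 1 / ((n : ℝ) + 1) * (⌊((n : ℝ) + 1) * a i⌋ : ℝ)
    rw [one_div_mul_eq_div, le_div_iff₀ h3, sub_mul, one_div_mul_cancel h3.ne']
    linarith
  have h2 : ∀ n : ℕ, ((1 / ((n : ℝ) + 1)) •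
      re (fun i => ⌊((n : ℝ) + 1) * a i⌋)) i ≤ a i := by
    intro n
    have h2 := Int.floor_le (((n : ℝ) + 1) * a i)
    have h3 : (0 : ℝ) < (n : ℝ) + 1 := by positivity
    change 1 / ((n : ℝ) + 1) * (⌊((n : ℝ) + 1) * a i⌋ : ℝ) ≤ _
    rw [one_div_mul_eq_div, div_le_iff₀ h3]
    linarith
  have h3 : Tendsto (fun n : ℕ => a i - 1 / ((n : ℝ) + 1)) atTop (𝓝 (a i)) := by
    simpa using (tendsto_const_nhds (x := a i)).sub (tendsto_one_div_add_atTop_nhds_zero_nat)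
  exact tendsto_of_tendsto_of_tendsto_of_le_of_le h3 tendsto_const_nhds h1 h2

/-- the comparison lemma -/
theorem Sys.compare (S : Sys κ) (a : κ → ℝ) (p q : κ → ℤ) {α β : ℝ}
    (hα : 0 ≤ α) (hβ : 0 ≤ β) :
    mx (S.D p) a ≤ β * mx (S.D q) a + S.C * ‖a‖ * ‖re p - α • a - β • re q‖ := by
  obtain ⟨t, b, ht, hlim⟩ := exists_approx a
  have c1 : Continuous fun a : κ → ℝ => β * mx (S.D q) a +
      S.C * ‖a‖ * ‖re p - α • a - β • re q‖ := by
    have := continuous_mx (S.D q)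
    fun_prop
  exact le_of_tendsto_of_tendsto' (((continuous_mx (S.D p)).tendsto a).comp hlim)
    ((c1.tendsto a).comp hlim) fun n => S.compare_rat (b n) p q (ht n) hα hβ

/-- the basic inequality -/
theorem Sys.ineq (S : Sys κ) (θ : κ → ℝ) (p q : κ → ℤ) {N N₀ : ℝ} (hN : 0 < N) (hN₀ : 0 < N₀)
    (η η₀ : κ → ℝ) (hη : re p = N • θ - η) (hη₀ : re q = N₀ • θ - η₀)
    (h : 0 < ‖η‖) (h₀ : 0 < ‖η₀‖) (hr : N₀ * ‖η‖ ≤ N * ‖η₀‖) (hpos : 0 < mx (S.D p) θ) :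
    1 + 2 * N * mx (S.D p) θ ≤ 2 * N * (‖η‖ / ‖η₀‖) * mx (S.D q) θ +
      2 * S.C * ‖re q‖ * (‖η‖ ^ 2 / ‖η₀‖) +
      2 * S.C * (N * ‖θ‖ + ‖η‖) * ‖η‖ * ‖(‖η₀‖⁻¹ • η₀) - (‖η‖⁻¹ • η)‖ := by
  set a : κ → ℝ := N • θ + η with ha
  have hC := S.C_nonneg
  -- (1)
  have s1 : 2 * N * mx (S.D p) θ + 1 ≤ mx (S.D p) a := by
    rcases exists_mx (S.D p) θ with h0 | ⟨d, hd, hd'⟩
    · rw [h0] at hpos
      exact absurd hpos (lt_irrefl _)
    · have e1 : ip (re p) d ≤ -1 := by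
        rcases S.nD p d hd with rfl | h1
        · rw [hd', ip_zero] at hpos
          exact absurd hpos (lt_irrefl _)
        · exact h1
      have e2 : a = (2 * N) • θ - re p := by
        rw [hη, ha]
        module
      refine le_trans ?_ (ip_le_mx hd a)
      rw [e2, ip_sub, ip_smul, hd']
      linarith
  -- (2)
  set r : ℝ := N₀ * ‖η‖ / (N * ‖η₀‖) with hrdef
  have hNh : 0 < N * ‖η₀‖ := mul_pos hN h₀
  have hr0 : 0 < r := div_pos (mul_pos hN₀ h) hNh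
  have hr1 : r ≤ 1 := (div_le_one hNh).mpr hr
  have hr2 : 0 < 1 + r := by linarith
  have hα : 0 ≤ (1 - r) / (1 + r) := div_nonneg (by linarith) hr2.le
  have hβ : 0 ≤ 2 * ‖η‖ / ((1 + r) * ‖η₀‖) := by positivity
  have s2 := S.compare a p q hα hβ
  have hβle : 2 * ‖η‖ / ((1 + r) * ‖η₀‖) ≤ 2 * (‖η‖ / ‖η₀‖) := by
    rw [← mul_div_assoc]
    refine div_le_div_of_nonneg_left (by positivity) h₀ ?_
    nlinarith
  -- the error vector
  have s3 : re p - ((1 - r) / (1 + r)) • a - (2 * ‖η‖ / ((1 + r) * ‖η₀‖)) • re q =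
      (2 * ‖η‖ / (1 + r)) • ((‖η₀‖⁻¹ • η₀) - (‖η‖⁻¹ • η)) := by
    funext i
    have e1 : re p i = N * θ i - η i := congrFun hη i
    have e2 : re q i = N₀ * θ i - η₀ i := congrFun hη₀ i
    simp only [Pi.sub_apply, Pi.smul_apply, smul_eq_mul, ha, Pi.add_apply]
    rw [e1, e2]
    have e3 : N₀ * ‖η‖ = r * (N * ‖η₀‖) := by
      rw [hrdef]
      field_simp
    field_simp
    linear_combination (-2 * θ i) * e3
  have s4 : ‖re p - ((1 - r) / (1 + r)) • a - (2 * ‖η‖ / ((1 + r) * ‖η₀‖)) • re q‖ ≤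
      2 * ‖η‖ * ‖(‖η₀‖⁻¹ • η₀) - (‖η‖⁻¹ • η)‖ := by
    rw [s3, norm_smul, Real.norm_eq_abs, abs_of_nonneg (by positivity)]
    refine mul_le_mul_of_nonneg_right ?_ (norm_nonneg _)
    rw [div_le_iff₀ hr2]
    nlinarith
  -- (3)
  have s5 : mx (S.D q) a ≤ N * mx (S.D q) θ + S.C * ‖re q‖ * ‖η‖ := by
    rw [ha]
    refine (mx_add_le _ _ _).trans ?_
    rw [mx_smul _ _ hN.le]
    exact add_le_add_right (S.le_D q η) _
  have s6 : ‖a‖ ≤ N * ‖θ‖ + ‖η‖ := by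
    rw [ha]
    refine (norm_add_le _ _).trans ?_
    rw [norm_smul, Real.norm_eq_abs, abs_of_pos hN]
  -- combination
  have s7 : 2 * ‖η‖ / ((1 + r) * ‖η₀‖) * mx (S.D q) a ≤
      2 * (‖η‖ / ‖η₀‖) * (N * mx (S.D q) θ + S.C * ‖re q‖ * ‖η‖) :=
    mul_le_mul hβle s5 (mx_nonneg _ _) (by positivity)
  have s8 : S.C * ‖a‖ * ‖re p - ((1 - r) / (1 + r)) • a -
      (2 * ‖η‖ / ((1 + r) * ‖η₀‖)) • re q‖ ≤
      S.C * (N * ‖θ‖ + ‖η‖) * (2 * ‖η‖ * ‖(‖η₀‖⁻¹ • η₀) - (‖η‖⁻¹ • η)‖) :=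
    mul_le_mul (mul_le_mul_of_nonneg_left s6 hC) s4 (norm_nonneg _) (by positivity)
  have s9 : 2 * (‖η‖ / ‖η₀‖) * (N * mx (S.D q) θ + S.C * ‖re q‖ * ‖η‖) =
      2 * N * (‖η‖ / ‖η₀‖) * mx (S.D q) θ + 2 * S.C * ‖re q‖ * (‖η‖ ^ 2 / ‖η₀‖) := by
    ring
  linarith

end Pool.Agent.Helper343_Dio
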