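import Pool.Agent.Helper391_TT.Codim
import Pool.Agent.Helper391_TT.Back
import Pool.Agent.Helper343_Tau.Top

set_option autoImplicit false

/-!
A lattice point outside the `g`-vector fan gives a generically indecomposable, generically
tau-reduced component.
-/

open Module Pool.Agent.Helper391_TT

namespace Pool.Agent.Helper343_Dio

section

variable {K : Type} [Field K] {A : Type} [Ring A] [Algebra K A]

theorem rigid_of_E2 (F : Obj K A) (h : Helper793Bricks.E2 F.f F.f) : Rigid F := by
  unfold Rigid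
  rw [ee_eq_zero_iff]
  intro φ
  have := F.pQ
  obtain ⟨ψ, hψ⟩ := Module.projective_lifting_property F.pr φ F.pr_surj
  obtain ⟨α, β, hab⟩ := h ψ
  refine ⟨F.pr ∘ₗ α, ?_⟩
  rw [← hψ, hab, LinearMap.comp_add, LinearMap.comp_assoc, ← LinearMap.comp_assoc β F.f F.pr,
    F.pr_comp, LinearMap.zero_comp, add_zero]

/-- the sum of copies of the projectives -/
abbrev projSum {ι : Type} [Fintype ι] (B : ProjBasis K A ι) (a : ι → ℕ) : FM K A :=
  FM.pi fun j : (Σ i, Fin (a i)) => B.P j.1

theorem projSum_proj {ι : Type} [Fintype ι] (B : ProjBasis K A ι) (a : ι → ℕ) :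
    Module.Projective A (projSum B a).X := by
  have := B.proj
  exact projPi fun j : (Σ i, Fin (a i)) => (B.P j.1).X

theorem dd_projSum {ι : Type} [Fintype ι] (B : ProjBasis K A ι) (a : ι → ℕ) (X : FM K A) :
    dd (projSum B a) X = ∑ i, a i * dd (B.P i) X := by
  rw [dd_pi_left, Fintype.sum_sigma]
  refine Finset.sum_congr rfl fun i _ => ?_
  simp

theorem exists_nonrigid_of_not_mem [FiniteDimensional K A] {ι : Type} [Fintype ι]
    (B : ProjBasis K A ι) (x : ι → ℤ) (hx : (fun i => (x i : ℝ)) ∉ B.gFan) :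
    ∃ P₁ P₀ : ModuleCat.{0} A, Module.Finite A P₁ ∧ Module.Projective A P₁ ∧
      Module.Finite A P₀ ∧ Module.Projective A P₀ ∧
      ∀ f : P₁ →ₗ[A] P₀, ¬ Helper793Bricks.E2 f f := by
  classical
  let P1 := projSum B fun i => (-x i).toNat
  let P0 := projSum B fun i => (x i).toNat
  refine ⟨ModuleCat.of A P1.X, ModuleCat.of A P0.X,
    Module.Finite.of_restrictScalars_finite K A P1.X, projSum_proj B _,
    Module.Finite.of_restrictScalars_finite K A P0.X, projSum_proj B _, ?_⟩
  intro f hf
  let F : Obj K A := ⟨P1, P0, f, projSum_proj B _, projSum_proj B _⟩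
  have hF : Rigid F := rigid_of_E2 F hf
  have hc : B.Cls F x := by
    intro X
    unfold chi
    change (dd P0 X : ℤ) - (dd P1 X : ℤ) = _
    rw [dd_projSum, dd_projSum]
    push_cast
    rw [← Finset.sum_sub_distrib]
    refine Finset.sum_congr rfl fun i _ => ?_
    rw [← sub_mul]
    congr 1
    omega
  obtain ⟨V, P, hVP, h⟩ := mem_cone_of_family B (I := Unit) (fun _ => F) (fun _ _ => hF)
    (fun _ => x) (fun _ => hc)
  apply hx
  refine ⟨V, P, hVP, ?_⟩
  have h1 := h (fun _ => 1) (fun _ => zero_le_one)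
  simpa using h1

end

section

variable {K : Type} [Field K] {A : Type} [Ring A] [Algebra K A] {n : ℕ} {e : Fin n → A}

open Helper343_Tau

theorem component_of_not_mem [Infinite K] [FiniteDimensional K A] (he : IsBasic K A e)
    {ι : Type} [Fintype ι] (B : ProjBasis K A ι) (x : ι → ℤ)
    (hx : (fun i => (x i : ℝ)) ∉ B.gFan) :
    ∃ (d : Fin n → ℕ) (Z : Set (Rep K A e d)), Z ∈ irreducibleComponents (Rep K A e d) ∧
      GenIndec Z ∧ cA Z = homTau Z ∧ 1 ≤ cA Z :=
  exists_component_of_nonrigid he (exists_nonrigid_of_not_mem B x hx)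

end

end Pool.Agent.Helper343_Dio
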