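import Pool.Agent.Helper391_TT.Codim

set_option autoImplicit false

/-!
Local finiteness in codimension two. (This is the theorem handed in under MP_655e1e_al by
helper391, copied here so that it can be used for other problems.)

Let `A` be a finite dimensional algebra over an arbitrary field such that all lattice points lie
in the `g`-vector fan. If `(V, P)` is a `τ`-rigid pair whose cone has codimension at most two,
then `(V ⊕ X, P)` is a `τ`-rigid pair for only finitely many indecomposable `X`. The case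
`V = P = 0` is Demonet's conjecture for algebras with at most two simple modules.
-/

namespace Pool.Agent.Helper343_Dio

open Pool.Agent.Helper391_TT

universe u

variable {k A : Type u} [Field k] [Ring A] [Algebra k A] {ι : Type} [Fintype ι]

theorem cmp_of_pi {J : Type} [Fintype J] (Z : J → Obj k A) (F : Obj k A)
    (h : Cmp (Obj.pi Z) F) (j : J) : Cmp (Z j) F := by
  classical
  refine ⟨(ee_pi_iff Z F.M).mp h.1 j, ?_⟩
  obtain ⟨e⟩ := pi_M Z
  exact ee_of_retract F ((retract_pi (fun j => (Z j).M) j).trans (Retract.of_equiv e.symm)) h.2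

/-- a finite cover of a planar cone, modulo the classes of the family `Z` -/
theorem planar_cover [Module.Finite k A] (B : ProjBasis k A ι)
    (rig : ∀ x : ι → ℤ, ∃ F : Obj k A, Rigid F ∧ B.Cls F x) {J : Type} [Fintype J]
    (Z : J → Obj k A) (hZ : ∀ i j, ee (Z i) (Z j).M = 0) (x y : ι → ℤ) :
    ∃ L : List (Obj k A × Obj k A),
      (∀ p ∈ L, Rigid p.1 ∧ Rigid p.2 ∧ Cmp p.1 p.2 ∧ ∀ j, Cmp (Z j) p.1 ∧ Cmp (Z j) p.2) ∧
      ∀ a b : ℝ, 0 ≤ a → 0 ≤ b → ∃ p ∈ L, ∃ s t : ℝ, 0 ≤ s ∧ 0 ≤ t ∧ ∃ c : J → ℝ, ∀ Y : FM k A,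
        ∑ i, (a * (x i : ℝ) + b * (y i : ℝ)) * (dd (B.P i) Y : ℝ) =
          s * chi p.1 Y + t * chi p.2 Y + ∑ j, c j * (chi (Z j) Y : ℝ) := by
  classical
  let U : Obj k A := Obj.pi Z
  have hU : Rigid U := rigid_pi Z hZ
  obtain ⟨u, hu⟩ := B.exists_chi U
  have stab : ∀ x : ι → ℤ, ∃ (N : ℕ) (H : Obj k A), Rigid H ∧ Cmp U H ∧
      B.Cls H (fun i => x i + N * u i) := by
    intro x
    obtain ⟨F, hF, cF⟩ := rig x
    obtain ⟨N, H, hH, hc, hchi⟩ := cmp_stab U hU (ee F U.M + ee U F.M) F hF (by omega) (by omega)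
      (fun a => by
        obtain ⟨G, hG, cG⟩ := rig (fun i => x i + a * u i)
        refine ⟨G, hG, fun X => ?_⟩
        rw [cG X, cF X, hu X, Finset.mul_sum, ← Finset.sum_add_distrib]
        exact Finset.sum_congr rfl fun i _ => by ring)
    refine ⟨N, H, hH, hc, fun X => ?_⟩
    rw [hchi X, cF X, hu X, Finset.mul_sum, ← Finset.sum_add_distrib]
    exact Finset.sum_congr rfl fun i _ => by ring
  obtain ⟨N, H, hH, hcH, cH⟩ := stab x
  obtain ⟨N', H', hH', hcH', cH'⟩ := stab y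
  obtain ⟨L, hL⟩ := cov_of_all H H' hH hH' (fun a b => by
    obtain ⟨G, hG, cG⟩ := rig (fun i => a * (x i + N * u i) + b * (y i + N' * u i))
    refine ⟨G, hG, fun X => ?_⟩
    rw [cG X, cH X, cH' X, Finset.mul_sum, Finset.mul_sum, ← Finset.sum_add_distrib]
    exact Finset.sum_congr rfl fun i _ => by ring)
  refine ⟨L.map fun p => (p.F', p.G'), ?_, ?_⟩
  · intro q hq
    obtain ⟨p, -, rfl⟩ := List.mem_map.mp hq
    exact ⟨p.rF, p.rG, p.cmp, fun j =>
      ⟨cmp_of_pi Z _ (cmp_comb H H' p.F' U p.rF p.a p.b p.hF hcH hcH') j,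
        cmp_of_pi Z _ (cmp_comb H H' p.G' U p.rG p.c p.d p.hG hcH hcH') j⟩⟩
  · intro a b ha hb
    obtain ⟨p, hp, s, t, hs, ht, e1, e2⟩ := hL a b ha hb
    refine ⟨_, List.mem_map_of_mem hp, s, t, hs, ht, fun _ => -(a * N + b * N'), fun Y => ?_⟩
    have h1 : (chi H Y : ℝ) = ∑ i, (x i : ℝ) * dd (B.P i) Y + N * ∑ j, (chi (Z j) Y : ℝ) := by
      have h2 : (chi U Y : ℝ) = ∑ j, (chi (Z j) Y : ℝ) := by
        rw [chi_pi]; push_cast; rfl
      rw [← h2, hu Y, cH Y]
      push_cast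
      rw [Finset.mul_sum, ← Finset.sum_add_distrib]
      exact Finset.sum_congr rfl fun i _ => by ring
    have h1' : (chi H' Y : ℝ) = ∑ i, (y i : ℝ) * dd (B.P i) Y + N' * ∑ j, (chi (Z j) Y : ℝ) := by
      have h2 : (chi U Y : ℝ) = ∑ j, (chi (Z j) Y : ℝ) := by
        rw [chi_pi]; push_cast; rfl
      rw [← h2, hu Y, cH' Y]
      push_cast
      rw [Finset.mul_sum, ← Finset.sum_add_distrib]
      exact Finset.sum_congr rfl fun i _ => by ring
    have h3 : ∑ i, (a * (x i : ℝ) + b * (y i : ℝ)) * (dd (B.P i) Y : ℝ) =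
        a * ∑ i, (x i : ℝ) * dd (B.P i) Y + b * ∑ i, (y i : ℝ) * dd (B.P i) Y := by
      rw [Finset.mul_sum, Finset.mul_sum, ← Finset.sum_add_distrib]
      exact Finset.sum_congr rfl fun i _ => by ring
    rw [h3, ← Finset.mul_sum]
    rw [p.hF Y, p.hG Y]
    push_cast
    rw [h1, h1', e1, e2]
    ring

theorem corank_two [Module.Finite k A] (B : ProjBasis k A ι)
    (h : ∀ x : ι → ℤ, (fun i => (x i : ℝ)) ∈ B.gFan) (V P : FM k A)
    (hVP : IsTauRigidPair V P)
    (hcodim : Fintype.card ι ≤ Module.finrank ℝ (Submodule.span ℝ (B.cone V P)) + 2) :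
    ∃ (n : ℕ) (W : Fin n → FM k A), ∀ X : FM k A, Indec A X.X →
      IsTauRigidPair (V.prod X) P → ∃ i, Nonempty (X.X ≃ₗ[A] (W i).X) := by
  classical
  have rig : ∀ x : ι → ℤ, ∃ F : Obj k A, Rigid F ∧ B.Cls F x := fun x => rigid_of_mem B x (h x)
  obtain ⟨hV, hP, hPV⟩ := hVP
  rw [isTauRigid_iff] at hV
  obtain ⟨S₀, hS₀⟩ := hV
  obtain ⟨J, fJ, V', hV', ⟨eV⟩⟩ := exists_decomp V
  obtain ⟨J', fJ', P', hP', ⟨eP⟩⟩ := exists_decomp P
  have S : (j : J) → MinPres (V' j) := fun j => Classical.choice (exists_minPres (V' j))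
  choose g hg using fun j => B.exists_gvec (V' j)
  choose h' hh' using fun j => B.exists_gvec (P' j)
  have hretV : ∀ j, Retract A (V' j).X V.X := fun j =>
    (retract_pi V' j).trans (Retract.of_equiv eV.symm)
  have hretP : ∀ j, Retract A (P' j).X P.X := fun j =>
    (retract_pi P' j).trans (Retract.of_equiv eP.symm)
  have hP'p : ∀ j, Module.Projective A (P' j).X := fun j => proj_of_retract (hretP j)
  let Z : J ⊕ J' → Obj k A := Sum.elim (fun j => (S j).obj) fun j => Obj.shift (P' j) (hP'p j)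
  have hZ : ∀ i j, ee (Z i) (Z j).M = 0 := by
    rintro (i | i) (j | j)
    · change ee (S i).obj (S j).obj.M = 0
      rw [ee_congr (S i).obj (X := (S j).obj.M) (Y := V' j) (S j).iso]
      exact ee_of_retract _ (hretV j) (S₀.ee_retract (S i) (hretV i) V hS₀)
    · exact ee_subsingleton _ _ (shift_M (P' j) (hP'p j))
    · change ee (Obj.shift (P' i) (hP'p i)) (S j).obj.M = 0
      rw [ee_congr (Obj.shift (P' i) (hP'p i)) (X := (S j).obj.M) (Y := V' j) (S j).iso]
      exact ee_shift _ _ _ (dd_eq_zero_of (hom_zero_retract hPV (hretP i) (hretV j)))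
    · exact ee_subsingleton _ _ (shift_M (P' j) (hP'p j))
  -- the classes of the family
  have hclsZ : ∀ (j : J ⊕ J') (Y : FM k A), (chi (Z j) Y : ℝ) =
      (Sum.elim (fun _ => 1) (fun _ => -1) j : ℝ) *
        ∑ i, ((Sum.elim g h' j i : ℤ) : ℝ) * (dd (B.P i) Y : ℝ) := by
    rintro (j | j) Y
    · change (chi (S j).obj Y : ℝ) = 1 * ∑ i, ((g j i : ℤ) : ℝ) * (dd (B.P i) Y : ℝ)
      rw [(hg j).cls (S j) Y]
      push_cast
      ring
    · change (chi (Obj.shift (P' j) (hP'p j)) Y : ℝ) =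
        -1 * ∑ i, ((h' j i : ℤ) : ℝ) * (dd (B.P i) Y : ℝ)
      have e4 := (hh' j).cls (MinPres.ofProj (P' j) (hP'p j)) Y
      rw [MinPres.chi_proj _ (hP'p j)] at e4
      rw [chi_shift, e4]
      push_cast
      ring
  let D : Submodule ℝ (ι → ℝ) :=
    Submodule.span ℝ (Set.range fun j : J ⊕ J' => fun i => ((Sum.elim g h' j i : ℤ) : ℝ))
  have hD : Module.finrank ℝ (Submodule.span ℝ (B.cone V P)) ≤ Module.finrank ℝ D :=
    Submodule.finrank_mono (cone_le_span B hV' eV hg hP' eP hh')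
  obtain ⟨v, w, hvw⟩ := two_more D (by omega)
  obtain ⟨L₁, g₁, c₁⟩ := planar_cover B rig Z hZ v w
  obtain ⟨L₂, g₂, c₂⟩ := planar_cover B rig Z hZ v (fun i => -w i)
  obtain ⟨L₃, g₃, c₃⟩ := planar_cover B rig Z hZ (fun i => -v i) w
  obtain ⟨L₄, g₄, c₄⟩ := planar_cover B rig Z hZ (fun i => -v i) (fun i => -w i)
  obtain ⟨n, W, hW⟩ := fin_of_cover Z hZ (L₁ ++ L₂ ++ L₃ ++ L₄) (by
    intro p hp
    rcases List.mem_append.mp hp with hp | hp
    · rcases List.mem_append.mp hp with hp | hp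
      · rcases List.mem_append.mp hp with hp | hp
        · exact g₁ p hp
        · exact g₂ p hp
      · exact g₃ p hp
    · exact g₄ p hp)
  refine ⟨n, W, fun X hX hVX => ?_⟩
  obtain ⟨hVX1, -, hVX3⟩ := hVX
  rw [isTauRigid_iff] at hVX1
  obtain ⟨T, hT⟩ := hVX1
  obtain ⟨S⟩ := exists_minPres X
  have rX : Retract A X.X (V.prod X).X :=
    ⟨LinearMap.inr A V.X X.X, LinearMap.snd A V.X X.X, by ext x; simp⟩
  have rV : Retract A V.X (V.prod X).X :=
    ⟨LinearMap.inl A V.X X.X, LinearMap.fst A V.X X.X, by ext x; simp⟩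
  refine hW X S hX (ee_of_retract _ rX (T.ee_retract S rX _ hT)) ?_ ?_
  · rintro (j | j)
    · constructor
      · rw [ee_congr _ (X := S.obj.M) (Y := X) S.iso]
        exact ee_of_retract _ rX (T.ee_retract _ ((hretV j).trans rV) _ hT)
      · change ee S.obj (Obj.M (MinPres.obj _)) = 0
        rw [ee_congr S.obj (Y := V' j) (MinPres.iso _)]
        exact ee_of_retract _ ((hretV j).trans rV) (T.ee_retract S rX _ hT)
    · constructor
      · change ee (Obj.shift (P' j) (hP'p j)) S.obj.M = 0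
        rw [ee_congr _ (X := S.obj.M) (Y := X) S.iso]
        exact ee_shift _ _ _ (dd_eq_zero_of (hom_zero_retract hVX3 (hretP j) rX))
      · exact ee_subsingleton _ _ (shift_M (P' j) (hP'p j))
  · obtain ⟨x, hx⟩ := B.exists_chi S.obj
    obtain ⟨a, b, hab⟩ := hvw fun i => (x i : ℝ)
    obtain ⟨c, hc⟩ := (Submodule.mem_span_range_iff_exists_fun ℝ).mp hab
    have hc' : ∀ i, (x i : ℝ) = a * (v i : ℝ) + b * (w i : ℝ) +
        ∑ j, c j * ((Sum.elim g h' j i : ℤ) : ℝ) := by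
      intro i
      have h1 := congrFun hc i
      rw [Finset.sum_apply] at h1
      simp only [Pi.smul_apply, smul_eq_mul] at h1
      linarith
    -- the class of `X` in terms of `v`, `w` and the family
    have hchi : ∀ Y : FM k A, (chi S.obj Y : ℝ) =
        ∑ i, (a * (v i : ℝ) + b * (w i : ℝ)) * (dd (B.P i) Y : ℝ) +
        ∑ j, (c j * (Sum.elim (fun _ => 1) (fun _ => -1) j : ℝ)) * (chi (Z j) Y : ℝ) := by
      intro Y
      rw [hx Y]
      push_cast
      have h2 : ∀ j, (c j * (Sum.elim (fun _ => 1) (fun _ => -1) j : ℝ)) * (chi (Z j) Y : ℝ) =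
          ∑ i, c j * ((Sum.elim g h' j i : ℤ) : ℝ) * (dd (B.P i) Y : ℝ) := by
        intro j
        rw [hclsZ j Y]
        have h3 : (Sum.elim (fun _ => 1) (fun _ => -1) j : ℝ) *
            (Sum.elim (fun _ => 1) (fun _ => -1) j : ℝ) = 1 := by
          rcases j with j | j <;> simp
        rw [mul_assoc, ← mul_assoc (Sum.elim (fun _ => 1) (fun _ => -1) j : ℝ), h3, one_mul,
          Finset.mul_sum]
        exact Finset.sum_congr rfl fun i _ => by ring
      rw [Finset.sum_congr rfl fun j _ => h2 j, Finset.sum_comm, ← Finset.sum_add_distrib]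
      refine Finset.sum_congr rfl fun i _ => ?_
      rw [hc' i, add_mul, Finset.sum_mul]
    -- from a cover of the right quadrant
    have fin : ∀ (L : List (Obj k A × Obj k A)) (x' y' : ι → ℤ) (a' b' : ℝ),
        (∀ i, a * (v i : ℝ) + b * (w i : ℝ) = a' * (x' i : ℝ) + b' * (y' i : ℝ)) →
        (∀ p ∈ L, p ∈ L₁ ++ L₂ ++ L₃ ++ L₄) →
        (∃ p ∈ L, ∃ s t : ℝ, 0 ≤ s ∧ 0 ≤ t ∧ ∃ c : J ⊕ J' → ℝ, ∀ Y : FM k A,
          ∑ i, (a' * (x' i : ℝ) + b' * (y' i : ℝ)) * (dd (B.P i) Y : ℝ) =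
          s * chi p.1 Y + t * chi p.2 Y + ∑ j, c j * (chi (Z j) Y : ℝ)) →
        ∃ p ∈ L₁ ++ L₂ ++ L₃ ++ L₄, ∃ s t : ℝ, 0 ≤ s ∧ 0 ≤ t ∧ ∃ c : J ⊕ J' → ℝ, ∀ Y : FM k A,
          (chi S.obj Y : ℝ) = s * chi p.1 Y + t * chi p.2 Y +
            ∑ j, c j * (chi (Z j) Y : ℝ) := by
      intro L x' y' a' b' he hsub ⟨p, hp, s, t, hs, ht, d, hd⟩
      refine ⟨p, hsub p hp, s, t, hs, ht,
        fun j => d j + c j * (Sum.elim (fun _ => 1) (fun _ => -1) j : ℝ), fun Y => ?_⟩
      rw [hchi Y]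
      have h5 : ∑ i, (a * (v i : ℝ) + b * (w i : ℝ)) * (dd (B.P i) Y : ℝ) =
          ∑ i, (a' * (x' i : ℝ) + b' * (y' i : ℝ)) * (dd (B.P i) Y : ℝ) :=
        Finset.sum_congr rfl fun i _ => by rw [he i]
      rw [h5, hd Y, add_assoc, ← Finset.sum_add_distrib]
      congr 1
      exact Finset.sum_congr rfl fun j _ => by ring
    rcases le_total 0 a with ha | ha <;> rcases le_total 0 b with hb | hb
    · exact fin L₁ v w a b (fun i => rfl) (fun p hp => by simp [hp]) (c₁ a b ha hb)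
    · exact fin L₂ v (fun i => -w i) a (-b) (fun i => by push_cast; ring)
        (fun p hp => by simp [hp]) (c₂ a (-b) ha (by linarith))
    · exact fin L₃ (fun i => -v i) w (-a) b (fun i => by push_cast; ring)
        (fun p hp => by simp [hp]) (c₃ (-a) b (by linarith) hb)
    · exact fin L₄ (fun i => -v i) (fun i => -w i) (-a) (-b) (fun i => by push_cast; ring)
        (fun p hp => by simp [hp]) (c₄ (-a) (-b) (by linarith) (by linarith))

end Pool.Agent.Helper343_Dio
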