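import Pool.Agent.Helper343_Tau.Defs

set_option autoImplicit false

/-!
Further definitions used in the statements of the results on components of module varieties.
-/

open Module

namespace Pool.Agent.Helper343_Dio

/-- Pairwise non-isomorphic finitely generated indecomposable modules. -/
def Family (A : Type) [Ring A] {I : Type} (V : I → ModuleCat.{0} A) : Prop :=
  (∀ i, Module.Finite A (V i) ∧ Helper343_Tau.Indec A (V i)) ∧
    ∀ i j, i ≠ j → IsEmpty (V i ≃ₗ[A] V j)

/-- The `K`-structure of a module over a `K`-algebra. -/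
@[reducible] noncomputable def kStr (K : Type) [Field K] (A : Type) [Ring A] [Algebra K A]
    (M : Type) [AddCommGroup M] [Module A M] : Module K M := Module.compHom M (algebraMap K A)

theorem kStr_tower (K : Type) [Field K] (A : Type) [Ring A] [Algebra K A]
    (M : Type) [AddCommGroup M] [Module A M] : @IsScalarTower K A M _ _ (kStr K A M).toSMul :=
  letI := kStr K A M
  ⟨fun c a x => by
    change (c • a) • x = algebraMap K A c • (a • x)
    rw [Algebra.smul_def, mul_smul]⟩

/-- `dim_K M` -/
noncomputable def kDim (K : Type) [Field K] (A : Type) [Ring A] [Algebra K A]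
    (M : Type) [AddCommGroup M] [Module A M] : ℕ :=
  @Module.finrank K M _ _ (kStr K A M)

/-- `dim_K Hom_A(M, N)` -/
noncomputable def homDim (K : Type) [Field K] (A : Type) [Ring A] [Algebra K A]
    (M N : Type) [AddCommGroup M] [Module A M] [AddCommGroup N] [Module A N] : ℕ :=
  letI := kStr K A N
  letI := kStr_tower K A N
  Module.finrank K (M →ₗ[A] N)

/-- `dim_K Hom_A(M, τ N) = t`, where `τ N = D Tr N` is computed from a minimal projective
presentation of `N`. -/
def HomTauEq (K : Type) [Field K] (A : Type) [Ring A] [Algebra K A]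
    (M N : Type) [AddCommGroup M] [Module A M] [AddCommGroup N] [Module A N] (t : ℕ) : Prop :=
  ∃ (P₁ P₀ : Type) (_ : AddCommGroup P₁) (_ : Module A P₁) (_ : AddCommGroup P₀)
    (_ : Module A P₀) (f : P₁ →ₗ[A] P₀) (q : P₀ →ₗ[A] N),
    Helper343_Tau.IsMinPres f q ∧ finrank K (M →ₗ[A] Helper343_Tau.Tau K f) = t

end Pool.Agent.Helper343_Dio
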