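import Pool.Agent.Helper391_TT.Codim

set_option autoImplicit false

/-!
Linear independence of the `g`-vectors of a `τ`-rigid pair.
-/

open Module Pool.Agent.Helper391_TT

namespace Pool.Agent.Helper343_Dio

universe u

variable {k A : Type u} [Field k] [Ring A] [Algebra k A] {ι : Type} [Fintype ι]

/-- the coefficients of the indecomposable modules in a linear relation vanish -/
theorem indep_aux {J J' : Type} [Fintype J] [Fintype J'] [Module.Finite k A]
    (V : J → FM k A) (hV : ∀ j, Indec A (V j).X)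
    (hne : ∀ i j, Nonempty ((V i).X ≃ₗ[A] (V j).X) → i = j)
    (S : (j : J) → MinPres (V j)) (hcmp : ∀ i j, ee (S i).obj (V j) = 0)
    (P : J' → FM k A) (hP : ∀ j, Module.Projective A (P j).X)
    (hPV : ∀ i j, dd (P i) (V j) = 0) (c : J ⊕ J' → ℝ)
    (hc : ∀ X : FM k A, ∑ j, c (Sum.inl j) * (chi (S j).obj X : ℝ) +
      ∑ j, c (Sum.inr j) * (dd (P j) X : ℝ) = 0) (j₀ : J) : c (Sum.inl j₀) = 0 := by
  classical
  by_contra h0
  let Z : J ⊕ J' → Obj k A := Sum.elim (fun j => (S j).obj) fun j => Obj.shift (P j) (hP j)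
  have hZ : ∀ i j, ee (Z i) (Z j).M = 0 := by
    rintro (i | i) (j | j)
    · change ee (S i).obj (S j).obj.M = 0
      rw [ee_congr (S i).obj (X := (S j).obj.M) (Y := V j) (S j).iso]
      exact hcmp i j
    · exact ee_subsingleton _ _ (shift_M (P j) (hP j))
    · change ee (Obj.shift (P i) (hP i)) (S j).obj.M = 0
      rw [ee_congr (Obj.shift (P i) (hP i)) (X := (S j).obj.M) (Y := V j) (S j).iso]
      exact ee_shift _ _ _ (hPV i j)
    · exact ee_subsingleton _ _ (shift_M (P j) (hP j))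
  -- signs
  let c' : J ⊕ J' → ℝ := Sum.elim (fun j => -(c (Sum.inl j) / c (Sum.inl j₀)))
    fun j => c (Sum.inr j) / c (Sum.inl j₀)
  have hc' : ∀ X : FM k A, ∑ j, c' j * (chi (Z j) X : ℝ) = 0 := by
    intro X
    rw [Fintype.sum_sum_type]
    have e1 : ∑ j, c' (Sum.inl j) * (chi (Z (Sum.inl j)) X : ℝ) =
        -(1 / c (Sum.inl j₀)) * ∑ j, c (Sum.inl j) * (chi (S j).obj X : ℝ) := by
      rw [Finset.mul_sum]
      refine Finset.sum_congr rfl fun j _ => ?_
      change -(c (Sum.inl j) / c (Sum.inl j₀)) * (chi (S j).obj X : ℝ) = _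
      ring
    have e2 : ∑ j, c' (Sum.inr j) * (chi (Z (Sum.inr j)) X : ℝ) =
        -(1 / c (Sum.inl j₀)) * ∑ j, c (Sum.inr j) * (dd (P j) X : ℝ) := by
      rw [Finset.mul_sum]
      refine Finset.sum_congr rfl fun j _ => ?_
      change c (Sum.inr j) / c (Sum.inl j₀) * (chi (Obj.shift (P j) (hP j)) X : ℝ) = _
      rw [chi_shift]
      push_cast
      ring
    rw [e1, e2, ← mul_add, hc X, mul_zero]
  have hc0 : c' (Sum.inl j₀) = -1 := by
    change -(c (Sum.inl j₀) / c (Sum.inl j₀)) = -1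
    rw [div_self h0]
  obtain ⟨N, hN⟩ : ∃ N : ℕ, ∀ j, |c' j| ≤ N := by
    obtain ⟨N, hN⟩ := exists_nat_ge (∑ j, |c' j|)
    exact ⟨N, fun j => (Finset.single_le_sum (f := fun j => |c' j|)
      (fun i _ => abs_nonneg (c' i)) (Finset.mem_univ j)).trans hN⟩
  -- the left hand side
  let m : J ⊕ J' → ℕ := fun j => if j = Sum.inl j₀ then 1 else N
  let F : Obj k A := Obj.comb Z m
  have hF : Rigid F := rigid_comb Z m hZ
  -- the right hand side
  let T := {j : J ⊕ J' // j ≠ Sum.inl j₀}
  obtain ⟨j, hj⟩ := retract_cone (fun j : T => Z j.1) (fun i j => hZ i.1 j.1)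
    (fun j => N + c' j.1) (fun j => by
      have := neg_le_of_abs_le (hN j.1)
      linarith) F hF (fun X => by
      rw [chi_comb]
      push_cast
      have e1 : ∀ j : J ⊕ J', ((m j : ℕ) : ℝ) * (chi (Z j) X : ℝ) =
          (if j = Sum.inl j₀ then 0 else (N + c' j) * (chi (Z j) X : ℝ)) -
            c' j * (chi (Z j) X : ℝ) := by
        intro j
        by_cases hj : j = Sum.inl j₀
        · have e2 : m j = 1 := if_pos hj
          rw [if_pos hj, e2, hj, hc0]
          push_cast
          ring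
        · have e2 : m j = N := if_neg hj
          rw [if_neg hj, e2]
          ring
      rw [Finset.sum_congr rfl fun j _ => e1 j, Finset.sum_sub_distrib, hc' X, sub_zero]
      have e3 : ∑ j : J ⊕ J', (if j = Sum.inl j₀ then 0 else (N + c' j) * (chi (Z j) X : ℝ)) =
          ∑ j ∈ Finset.univ.filter (fun j : J ⊕ J' => j ≠ Sum.inl j₀),
            (N + c' j) * (chi (Z j) X : ℝ) := by
        rw [Finset.sum_filter]
        refine Finset.sum_congr rfl fun j _ => ?_
        by_cases hj : j = Sum.inl j₀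
        · rw [if_pos hj, if_neg (not_not.mpr hj)]
        · rw [if_neg hj, if_pos hj]
      rw [e3]
      refine Finset.sum_subtype _ (fun j => ?_) _
      simp) (V j₀) (hV j₀) (by
      obtain ⟨eF⟩ := pi_M fun j : (Σ i : (J ⊕ J'), Fin (m i)) => Z j.1
      refine Retract.trans ?_ (Retract.of_equiv eF.symm)
      have h1 : 0 < m (Sum.inl j₀) := by
        have : m (Sum.inl j₀) = 1 := if_pos rfl
        omega
      refine (Retract.of_equiv (S j₀).iso.symm).trans ?_
      exact retract_pi (fun j : (Σ i : (J ⊕ J'), Fin (m i)) => (Z j.1).M)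
        ⟨Sum.inl j₀, ⟨0, h1⟩⟩)
  obtain ⟨j | j, hjn⟩ := j
  · have h1 : Retract A (V j₀).X (V j).X := hj.trans (Retract.of_equiv (S j).iso)
    exact hjn (congrArg Sum.inl (hne j₀ j (h1.equiv (hV j) (hV j₀).1)).symm)
  · obtain ⟨i, r, hir⟩ := hj
    have h1 : Subsingleton (Z (Sum.inr j)).M.X := shift_M (P j) (hP j)
    have := (hV j₀).1
    obtain ⟨x, hx⟩ := exists_ne (0 : (V j₀).X)
    apply hx
    have h2 : r (i x) = x := LinearMap.congr_fun hir x
    have h3 : i x = 0 := h1.elim _ _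
    rw [← h2, h3, map_zero]

theorem ProjBasis.dd_unit (B : ProjBasis k A ι) [DecidableEq ι] (P : FM k A) (s : ι)
    (e : P.X ≃ₗ[A] (B.P s).X) (hP : Module.Projective A P.X) (h : ι → ℤ) (hh : B.IsGVec P h)
    [Module.Finite k A] : h = Pi.single s 1 := by
  refine B.cls_unique (F := (MinPres.ofProj P hP).obj) (hh.cls _) fun X => ?_
  rw [MinPres.chi_proj _ hP, dd_congr_left (V := P) (W := B.P s) e]
  rw [Finset.sum_eq_single s]
  · simp
  · intro b _ hb
    rw [Pi.single_eq_of_ne hb, zero_mul]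
  · simp

theorem indep [Module.Finite k A] (B : ProjBasis k A ι) {J J' : Type} [Fintype J] [Fintype J']
    (V : J → FM k A) (hV : ∀ j, Indec A (V j).X)
    (hne : ∀ i j, Nonempty ((V i).X ≃ₗ[A] (V j).X) → i = j)
    (S : (j : J) → MinPres (V j)) (hcmp : ∀ i j, ee (S i).obj (V j) = 0)
    (P : J' → FM k A) (hP : ∀ j, Module.Projective A (P j).X)
    (hPi : ∀ j, Indec A (P j).X) (hPne : ∀ i j, Nonempty ((P i).X ≃ₗ[A] (P j).X) → i = j)
    (hPV : ∀ i j, dd (P i) (V j) = 0) (g : J → ι → ℤ) (hg : ∀ j, B.IsGVec (V j) (g j))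
    (h : J' → ι → ℤ) (hh : ∀ j, B.IsGVec (P j) (h j)) :
    LinearIndependent ℝ (fun j : J ⊕ J' => (fun i => ((Sum.elim g h j i : ℤ) : ℝ) : ι → ℝ)) := by
  classical
  rw [Fintype.linearIndependent_iff]
  intro c hc
  have hc1 : ∀ i, ∑ j, c (Sum.inl j) * (g j i : ℝ) + ∑ j, c (Sum.inr j) * (h j i : ℝ) = 0 := by
    intro i
    have h1 := congrFun hc i
    rw [Finset.sum_apply, Fintype.sum_sum_type] at h1
    exact h1
  have h0 := indep_aux V hV hne S hcmp P hP hPV c (fun X => by
    have e1 : ∑ j, c (Sum.inl j) * (chi (S j).obj X : ℝ) =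
        ∑ i, (∑ j, c (Sum.inl j) * (g j i : ℝ)) * (dd (B.P i) X : ℝ) := by
      rw [Finset.sum_congr rfl fun i _ => Finset.sum_mul _ _ _, Finset.sum_comm]
      refine Finset.sum_congr rfl fun j _ => ?_
      rw [(hg j).cls (S j) X]
      push_cast
      rw [Finset.mul_sum]
      exact Finset.sum_congr rfl fun i _ => by ring
    have e2 : ∑ j, c (Sum.inr j) * (dd (P j) X : ℝ) =
        ∑ i, (∑ j, c (Sum.inr j) * (h j i : ℝ)) * (dd (B.P i) X : ℝ) := by
      rw [Finset.sum_congr rfl fun i _ => Finset.sum_mul _ _ _, Finset.sum_comm]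
      refine Finset.sum_congr rfl fun j _ => ?_
      have e4 := (hh j).cls (MinPres.ofProj (P j) (hP j)) X
      rw [MinPres.chi_proj _ (hP j)] at e4
      have e5 := congrArg (fun z : ℤ => (z : ℝ)) e4
      push_cast at e5
      rw [e5, Finset.mul_sum]
      exact Finset.sum_congr rfl fun i _ => by ring
    rw [e1, e2, ← Finset.sum_add_distrib]
    refine Finset.sum_eq_zero fun i _ => ?_
    rw [← add_mul, hc1 i, zero_mul])
  choose s hs using fun j => B.all (P j) (hP j) (hPi j)
  have hs' : ∀ j, h j = Pi.single (s j) 1 := fun j => by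
    obtain ⟨e⟩ := hs j
    exact ProjBasis.dd_unit B (P j) (s j) e (hP j) (h j) (hh j)
  have hinj : Function.Injective s := by
    intro i j hij
    obtain ⟨ei⟩ := hs i
    obtain ⟨ej⟩ := hs j
    rw [hij] at ei
    exact hPne i j ⟨ei ≪≫ₗ ej.symm⟩
  rintro (j | j)
  · exact h0 j
  · have h1 := hc1 (s j)
    rw [Finset.sum_eq_zero (fun i _ => by rw [h0 i, zero_mul]), zero_add,
      Finset.sum_eq_single j] at h1
    · rw [hs' j, Pi.single_eq_same] at h1
      simpa using h1
    · intro b _ hb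
      rw [hs' b, Pi.single_eq_of_ne (fun h2 => hb (hinj h2.symm))]
      simp
    · simp

end Pool.Agent.Helper343_Dio
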