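import Pool.Agent.Helper391_TT.Codim
import Pool.Agent.Helper343_Tau.Defs

set_option autoImplicit false

/-!
The indecomposable projective modules of a basic algebra.
-/

open Module Pool.Agent.Helper391_TT

namespace Pool.Agent.Helper343_Dio

variable {K : Type} [Field K] {A : Type} [Ring A] [Algebra K A] {n : ℕ} {e : Fin n → A}

open Helper343_Tau (IsBasic)

/-- the left ideal `A e` -/
abbrev Ae (A : Type) [Ring A] (e : A) : Submodule A A := Submodule.span A {e}

theorem mem_Ae {e x : A} (he : e * e = e) : x ∈ Ae A e ↔ x * e = x := by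
  rw [Submodule.mem_span_singleton]
  constructor
  · rintro ⟨a, rfl⟩
    rw [smul_eq_mul, mul_assoc, he]
  · intro h
    exact ⟨x, h⟩

/-- the left ideal `A e`, as an object -/
abbrev PAe (K : Type) [Field K] {A : Type} [Ring A] [Algebra K A] [FiniteDimensional K A]
    (e : A) : FM K A where
  X := Ae A e
  fd := Module.Finite.of_injective ((Ae A e).subtype.restrictScalars K)
    (Submodule.subtype_injective _)

theorem Ae_proj {e : A} (he : e * e = e) : Module.Projective A (Ae A e) := by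
  refine Module.Projective.of_split (M := A) (Ae A e).subtype
    ((LinearMap.toSpanSingleton A A e).codRestrict (Ae A e) fun x => ?_) ?_
  · rw [mem_Ae he]
    change x * e * e = x * e
    rw [mul_assoc, he]
  · ext x
    change (x : A) * e = x
    exact (mem_Ae he).mp x.2

variable (he : IsBasic K A e)
include he

theorem idem (i : Fin n) : e i * e i = e i := he.coi.idem i

theorem Ae_indec (i : Fin n) : Helper391_TT.Indec A (Ae A (e i)) := by
  obtain ⟨π, hπ, hnil⟩ := he.exists_pi
  have hi := idem he i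
  have hmem : e i ∈ Ae A (e i) := (mem_Ae hi).mpr hi
  have hne : e i ≠ 0 := by
    intro h0
    have h1 := hπ i
    rw [h0, map_zero] at h1
    have h2 := congrFun h1 i
    simp at h2
  refine ⟨⟨⟨⟨e i, hmem⟩, 0, fun h => hne (congrArg Subtype.val h)⟩⟩, fun N₁ N₂ hc => ?_⟩
  obtain ⟨y₁, h1, y₂, h2, hy⟩ := Submodule.mem_sup.mp
    (hc.sup_eq_top ▸ Submodule.mem_top : (⟨e i, hmem⟩ : Ae A (e i)) ∈ N₁ ⊔ N₂)
  have hy' : (y₁ : A) + y₂ = e i := congrArg Subtype.val hy
  -- the components of `e i`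
  have hmul : ∀ (N N' : Submodule A (Ae A (e i))) (y y' : Ae A (e i)), Disjoint N N' →
      y ∈ N → y' ∈ N' → (y : A) + y' = e i → ∀ z ∈ N, (z : A) * (y : A) = z := by
    intro N N' y y' hd hyN hyN' hsum z hz
    have e1 : (z : A) • y - z ∈ N := N.sub_mem (N.smul_mem _ hyN) hz
    have e2 : (z : A) • y - z ∈ N' := by
      have e3 : (z : A) • y - z = -((z : A) • y') := by
        apply Subtype.ext
        change (z : A) * (y : A) - z = -((z : A) * (y' : A))
        have e4 : (z : A) * ((y : A) + (y' : A)) = z := by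
          rw [hsum]
          exact (mem_Ae hi).mp z.2
        rw [mul_add] at e4
        rw [eq_sub_of_add_eq e4]
        abel
      rw [e3]
      exact N'.neg_mem (N'.smul_mem _ hyN')
    have e5 := Submodule.disjoint_def.mp hd _ e1 e2
    have e6 := congrArg Subtype.val e5
    change (z : A) * (y : A) - z = 0 at e6
    exact sub_eq_zero.mp e6
  have key : ∀ (N : Submodule A (Ae A (e i))) (y : Ae A (e i)),
      (∀ z ∈ N, (z : A) * (y : A) = z) → π (y : A) = 0 → N = ⊥ := by
    intro N y hz h0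
    obtain ⟨m, hm⟩ := hnil _ h0
    have hz' : ∀ m : ℕ, ∀ z ∈ N, (z : A) * (y : A) ^ m = z := by
      intro m
      induction m with
      | zero => intro z _; rw [pow_zero, mul_one]
      | succ m ih => intro z hzN; rw [pow_succ, ← mul_assoc, ih z hzN, hz z hzN]
    rw [eq_bot_iff]
    intro z hzN
    have e7 := hz' m z hzN
    rw [hm, mul_zero] at e7
    exact (Submodule.mem_bot A).mpr (Subtype.ext e7.symm)
  have m1 := hmul N₁ N₂ y₁ y₂ hc.disjoint h1 h2 hy'
  have m2 := hmul N₂ N₁ y₂ y₁ hc.disjoint.symm h2 h1 (by rw [add_comm]; exact hy')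
  have i1 : (y₁ : A) * y₁ = y₁ := m1 y₁ h1
  have i2 : (y₂ : A) * y₂ = y₂ := m2 y₂ h2
  have i3 : (y₂ : A) * y₁ = 0 := by
    have e1 : (y₂ : A) * ((y₁ : A) + y₂) = y₂ := by
      rw [hy']
      exact (mem_Ae hi).mp y₂.2
    rw [mul_add, i2] at e1
    simpa using e1
  have i4 : e i * (y₁ : A) = y₁ := by
    have e1 : ((y₁ : A) + y₂) * (y₁ : A) = y₁ := by rw [add_mul, i1, i3, add_zero]
    rwa [hy'] at e1
  have p1 : π (e i) * π (y₁ : A) = π (y₁ : A) := by rw [← map_mul, i4]
  have p2 : π (y₁ : A) * π (y₁ : A) = π (y₁ : A) := by rw [← map_mul, i1]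
  have p3 : ∀ j, j ≠ i → π (y₁ : A) j = 0 := by
    intro j hj
    rw [← p1, hπ, Pi.mul_apply, Pi.single_eq_of_ne hj, zero_mul]
  have p4 := congrFun p2 i
  rw [Pi.mul_apply] at p4
  have p5 : π (y₁ : A) i = 0 ∨ π (y₁ : A) i = 1 := by
    rcases eq_or_ne (π (y₁ : A) i) 0 with h | h
    · exact Or.inl h
    · exact Or.inr (mul_right_cancel₀ h (by rw [p4, one_mul]))
  rcases p5 with h | h
  · left
    refine key N₁ y₁ m1 (funext fun j => ?_)
    by_cases hj : j = i
    · rw [hj, h]; rfl
    · rw [p3 j hj]; rfl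
  · right
    refine key N₂ y₂ m2 ?_
    have q1 : π (y₁ : A) + π (y₂ : A) = π (e i) := by rw [← map_add, hy']
    have q2 : π (y₁ : A) = π (e i) := by
      funext j
      rw [hπ]
      by_cases hj : j = i
      · rw [hj, h, Pi.single_eq_same]
      · rw [p3 j hj, Pi.single_eq_of_ne hj]
    rw [q2] at q1
    simpa using q1

theorem Ae_inj (i j : Fin n) (h : Nonempty (Ae A (e i) ≃ₗ[A] Ae A (e j))) : i = j := by
  by_contra hij
  obtain ⟨φ⟩ := h
  obtain ⟨π, hπ, hnil⟩ := he.exists_pi
  have hi := idem he i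
  have hj := idem he j
  have mi : e i ∈ Ae A (e i) := (mem_Ae hi).mpr hi
  have mj : e j ∈ Ae A (e j) := (mem_Ae hj).mpr hj
  have h1 : e i * (φ ⟨e i, mi⟩ : A) = φ ⟨e i, mi⟩ := by
    have h2 := φ.map_smul (e i) ⟨e i, mi⟩
    have h3 : (e i) • (⟨e i, mi⟩ : Ae A (e i)) = ⟨e i, mi⟩ := Subtype.ext hi
    rw [h3] at h2
    exact (congrArg Subtype.val h2).symm
  have h4 : (φ ⟨e i, mi⟩ : A) * e j = φ ⟨e i, mi⟩ := (mem_Ae hj).mp (φ ⟨e i, mi⟩).2
  have h5 : π (φ ⟨e i, mi⟩ : A) = 0 := by
    rw [← h4, map_mul, ← h1, map_mul, hπ, hπ]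
    funext l
    simp only [Pi.mul_apply, Pi.zero_apply]
    by_cases hl : l = i
    · rw [Pi.single_eq_of_ne (M := fun _ => K) (i := j) (by rw [hl]; exact hij), mul_zero]
    · rw [Pi.single_eq_of_ne (M := fun _ => K) (i := i) hl, zero_mul, zero_mul]
  -- the inverse
  have h6 : (φ ⟨e i, mi⟩ : A) * (φ.symm ⟨e j, mj⟩ : A) = e i := by
    have h7 := φ.symm.map_smul (φ ⟨e i, mi⟩ : A) ⟨e j, mj⟩
    have h8 : (φ ⟨e i, mi⟩ : A) • (⟨e j, mj⟩ : Ae A (e j)) = φ ⟨e i, mi⟩ := Subtype.ext h4
    rw [h8, φ.symm_apply_apply] at h7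
    exact (congrArg Subtype.val h7).symm
  have h9 : π (e i) = 0 := by rw [← h6, map_mul, h5, zero_mul]
  have h10 := congrFun h9 i
  rw [hπ, Pi.single_eq_same] at h10
  exact one_ne_zero h10

theorem retract_A : Retract A A ((j : Fin n) → Ae A (e j)) := by
  refine ⟨LinearMap.pi fun j => (LinearMap.toSpanSingleton A A (e j)).codRestrict (Ae A (e j))
    fun x => ?_, ∑ j, (Ae A (e j)).subtype ∘ₗ LinearMap.proj j, ?_⟩
  · rw [mem_Ae (idem he j)]
    change x * e j * e j = x * e j
    rw [mul_assoc, idem he j]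
  · refine LinearMap.ext fun x => ?_
    rw [LinearMap.comp_apply, LinearMap.sum_apply]
    change ∑ j, x * e j = x
    rw [← Finset.mul_sum, he.coi.complete, mul_one]

/-- the indecomposable projective modules of a basic algebra -/
noncomputable def projBasis [FiniteDimensional K A] : ProjBasis K A (Fin n) where
  P i := PAe K (e i)
  proj i := Ae_proj (idem he i)
  indec i := Ae_indec he i
  inj i j h := Ae_inj he i j h
  all W hW hWi := by
    have : Module.Finite A W.X := Module.Finite.of_restrictScalars_finite K A W.X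
    obtain ⟨m, f, g, -, -, hfg⟩ := Module.Finite.exists_comp_eq_id_of_projective A W.X
    obtain ⟨-, hr⟩ := Retract.of_pi K hWi g f hfg
    exact iso_of_retract_pi (V := fun j => PAe K (e j)) (Ae_indec he) hWi
      (hr.trans (retract_A he))

end Pool.Agent.Helper343_Dio
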