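import Pool.Agent.Helper343_Dio.Bridge
import Pool.Agent.Helper343_Dio.PBasis

set_option autoImplicit false

/-!
Translation between the two sets of definitions of `τ`-rigid modules.
-/

open Module Pool.Agent.Helper391_TT

namespace Pool.Agent.Helper343_Dio

variable {K : Type} [Field K] {A : Type} [Ring A] [Algebra K A] [FiniteDimensional K A]

open Helper343_Tau (TauRigid Tau IsMinPres IsPres kMod kMod_tower)

/-- a finitely generated module, as an object -/
noncomputable abbrev ofMod (K : Type) [Field K] {A : Type} [Ring A] [Algebra K A]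
    [FiniteDimensional K A] (M : Type) [AddCommGroup M] [Module A M] (h : Module.Finite A M) :
    FM K A :=
  letI := kMod K A M
  letI := kMod_tower K A M
  { X := M
    mk' := kMod K A M
    tw := kMod_tower K A M
    fd := Module.Finite.trans A M }

/-- the minimal presentation given by maps -/
noncomputable def toMinPres {P₁ P₀ : Type} [AddCommGroup P₁] [Module A P₁]
    [AddCommGroup P₀] [Module A P₀] (V : FM K A) (f : P₁ →ₗ[A] P₀) (q : P₀ →ₗ[A] V.X)
    (h : IsMinPres f q) : MinPres V where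
  P₁ := ofMod K P₁ h.fin₁
  P₀ := ofMod K P₀ h.fin₀
  pP₁ := h.proj₁
  pP₀ := h.proj₀
  f := f
  π := q
  surj := h.surj
  exact := h.exact
  min₀ := fun L hL => h.min₀ L (by rw [sup_comm]; exact hL)
  min₁ := fun L hL => h.min₁ L (by rw [sup_comm]; exact hL)

theorem ofMinPres {V : FM K A} (S : MinPres V) : IsMinPres S.f S.π where
  proj₁ := S.pP₁
  fin₁ := Module.Finite.of_restrictScalars_finite K A S.P₁.X
  proj₀ := S.pP₀
  fin₀ := Module.Finite.of_restrictScalars_finite K A S.P₀.X
  surj := S.surj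
  exact := S.exact
  min₀ := fun L hL => S.min₀ L (by rw [sup_comm]; exact hL)
  min₁ := fun L hL => S.min₁ L (by rw [sup_comm]; exact hL)

theorem FM.fin (V : FM K A) : Module.Finite A V.X :=
  Module.Finite.of_restrictScalars_finite K A V.X

theorem isTauRigid_of (V : FM K A) (h : TauRigid K A V.X) : IsTauRigid V := by
  obtain ⟨P₁, P₀, i1, i2, i3, i4, f, q, hf, hβ⟩ := h
  have := FM.fin V
  rw [isTauRigid_iff]
  refine ⟨toMinPres V f q hf, ?_⟩
  rw [ee_eq_zero_iff]
  exact Helper343_Tau.e0_of_tauRigid f q hf hβ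

theorem finrank_tau (V W : FM K A) (S : MinPres V) :
    Module.finrank K (W.X →ₗ[A] Tau K S.f) = ee S.obj W := by
  have h := ofMinPres S
  have := h.fin₁
  have := h.fin₀
  obtain ⟨φ⟩ := Helper343_Tau.ar_formula K S.f W.X
  rw [φ.finrank_eq, Subspace.dual_finrank_eq]
  rfl

theorem tauRigid_of (V : FM K A) (h : IsTauRigid V) : TauRigid K A V.X := by
  rw [isTauRigid_iff] at h
  obtain ⟨S, hS⟩ := h
  have h := ofMinPres S
  have := h.fin₁
  have := h.fin₀
  refine ⟨S.P₁.X, S.P₀.X, inferInstance, inferInstance, inferInstance, inferInstance, S.f, S.π,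
    h, ?_⟩
  obtain ⟨φ⟩ := Helper343_Tau.ar_formula K S.f V.X
  rw [ee_eq_zero_iff] at hS
  intro β
  have h0 : φ β = 0 := by
    refine LinearMap.ext fun y => ?_
    obtain ⟨ψ, rfl⟩ := Submodule.Quotient.mk_surjective _ y
    obtain ⟨χ, hχ⟩ := hS ψ
    have h1 : (Submodule.Quotient.mk ψ : Helper343_Tau.ECoker K S.f V.X) = 0 := by
      rw [Submodule.Quotient.mk_eq_zero]
      exact ⟨χ, hχ⟩
    rw [h1, map_zero, map_zero]
  exact φ.map_eq_zero_iff.mp h0

end Pool.Agent.Helper343_Dio
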