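import Pool.Agent.Helper343_Dio.Corank
import Pool.Agent.Helper343_Dio.HDefs
import Pool.Agent.Helper343_Dio.Indep
import Pool.Agent.Helper343_Dio.Trans

set_option autoImplicit false

/-!
A `τ`-tilting infinite reduction of rank at most two gives a component.
-/

open Module Pool.Agent.Helper391_TT

namespace Pool.Agent.Helper343_Dio

open Helper343_Tau (IsBasic TauRigid GenIndec cA homTau Rep)

variable {K : Type} [Field K] {A : Type} [Ring A] [Algebra K A] {n : ℕ} {e : Fin n → A}

theorem component_of_corank_two [Infinite K] [FiniteDimensional K A] (he : IsBasic K A e)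
    {a b : ℕ} (hn : n ≤ a + b + 2) (V : Fin a → ModuleCat.{0} A) (P : Fin b → ModuleCat.{0} A)
    (X : ℕ → ModuleCat.{0} A) (hV : Family A V) (hP : Family A P) (hX : Family A X)
    (hproj : ∀ j, Module.Projective A (P j))
    (hrig : ∀ m, TauRigid K A ((∀ i, V i) × X m))
    (hzero : ∀ m j (f : P j →ₗ[A] (∀ i, V i) × X m), f = 0) :
    ∃ (d : Fin n → ℕ) (Z : Set (Rep K A e d)), Z ∈ irreducibleComponents (Rep K A e d) ∧
      GenIndec Z ∧ cA Z = homTau Z ∧ 1 ≤ cA Z := by
  classical
  by_contra hcon
  let B := projBasis he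
  have hall : ∀ x : Fin n → ℤ, (fun i => (x i : ℝ)) ∈ B.gFan := by
    intro x
    by_contra hx
    exact hcon (component_of_not_mem he B x hx)
  -- the objects
  let V' : Fin a → FM K A := fun i => ofMod K (V i) (hV.1 i).1
  let P' : Fin b → FM K A := fun j => ofMod K (P j) (hP.1 j).1
  let X' : ℕ → FM K A := fun m => ofMod K (X m) (hX.1 m).1
  let VV : FM K A := FM.pi V'
  let PP : FM K A := FM.pi P'
  have hV'i : ∀ i, Helper391_TT.Indec A (V' i).X := fun i => (hV.1 i).2
  have hP'i : ∀ i, Helper391_TT.Indec A (P' i).X := fun i => (hP.1 i).2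
  have hX'i : ∀ i, Helper391_TT.Indec A (X' i).X := fun i => (hX.1 i).2
  have hV'n : ∀ i j, Nonempty ((V' i).X ≃ₗ[A] (V' j).X) → i = j := by
    rintro i j ⟨φ⟩
    by_contra hij
    exact (hV.2 i j hij).elim φ
  have hP'n : ∀ i j, Nonempty ((P' i).X ≃ₗ[A] (P' j).X) → i = j := by
    rintro i j ⟨φ⟩
    by_contra hij
    exact (hP.2 i j hij).elim φ
  have hP'p : ∀ j, Module.Projective A (P' j).X := hproj
  have hPPp : Module.Projective A PP.X := projPi fun j => (P' j).X
  -- the pairs
  have hpair : ∀ m, IsTauRigidPair (VV.prod (X' m)) PP := by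
    intro m
    refine ⟨isTauRigid_of (VV.prod (X' m)) (hrig m), hPPp, fun φ => ?_⟩
    refine LinearMap.pi_ext' fun j => ?_
    rw [LinearMap.zero_comp]
    exact hzero m j (φ ∘ₗ LinearMap.single A (fun j => (P' j).X) j)
  obtain ⟨hr0, -, hz0⟩ := hpair 0
  rw [isTauRigid_iff] at hr0
  obtain ⟨T, hT⟩ := hr0
  have rV : Retract A VV.X (VV.prod (X' 0)).X :=
    ⟨LinearMap.inl A VV.X (X' 0).X, LinearMap.fst A VV.X (X' 0).X, by ext x; simp⟩
  have S : (j : Fin a) → MinPres (V' j) := fun j => Classical.choice (exists_minPres (V' j))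
  have rVi : ∀ i, Retract A (V' i).X (VV.prod (X' 0)).X := fun i =>
    (retract_pi V' i).trans rV
  have hcmp : ∀ i j, ee (S i).obj (V' j) = 0 := fun i j =>
    ee_of_retract _ (rVi j) (T.ee_retract (S i) (rVi i) _ hT)
  have hVV : IsTauRigidPair VV PP := by
    refine ⟨?_, hPPp, hom_zero_retract hz0 Retract.refl rV⟩
    rw [isTauRigid_iff]
    obtain ⟨S'⟩ := exists_minPres VV
    exact ⟨S', ee_of_retract _ rV (T.ee_retract S' rV _ hT)⟩
  have hPV : ∀ i j, dd (P' i) (V' j) = 0 := fun i j =>
    dd_eq_zero_of (hom_zero_retract hz0 (retract_pi P' i) (rVi j))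
  choose g hg using fun j => B.exists_gvec (V' j)
  choose h hh using fun j => B.exists_gvec (P' j)
  have hli := indep B V' hV'i hV'n S hcmp P' hP'p hP'i hP'n hPV g hg h hh
  -- the codimension
  have hcodim : Fintype.card (Fin n) ≤
      Module.finrank ℝ (Submodule.span ℝ (B.cone VV PP)) + 2 := by
    have h1 : Submodule.span ℝ (Set.range fun j : Fin a ⊕ Fin b =>
        (fun i => ((Sum.elim g h j i : ℤ) : ℝ) : Fin n → ℝ)) ≤
        Submodule.span ℝ (B.cone VV PP) := by
      rw [Submodule.span_le]
      rintro _ ⟨j | j, rfl⟩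
      · refine Submodule.subset_span ⟨Fin a, Fin b, inferInstance, inferInstance, V', P', g, h,
          Pi.single j 1, 0, hV'i, ⟨LinearEquiv.refl _ _⟩, hg, hP'i, ⟨LinearEquiv.refl _ _⟩, hh,
          ?_, fun _ => le_rfl, ?_⟩
        · intro i
          by_cases hij : i = j
          · subst hij
            rw [Pi.single_eq_same]
            exact zero_le_one
          · rw [Pi.single_eq_of_ne hij]
        · intro l
          rw [Finset.sum_eq_single j]
          · simp
          · intro i _ hij
            rw [Pi.single_eq_of_ne hij, zero_mul]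
          · simp
      · have h2 : (fun i => ((Sum.elim g h (Sum.inr j) i : ℤ) : ℝ) : Fin n → ℝ) =
            -(fun i => (-(h j i : ℝ))) := by
          funext i
          simp
        change (fun i => ((Sum.elim g h (Sum.inr j) i : ℤ) : ℝ) : Fin n → ℝ) ∈ _
        rw [h2]
        refine Submodule.neg_mem _ (Submodule.subset_span ⟨Fin a, Fin b, inferInstance,
          inferInstance, V', P', g, h, 0, Pi.single j 1, hV'i, ⟨LinearEquiv.refl _ _⟩, hg, hP'i,
          ⟨LinearEquiv.refl _ _⟩, hh, fun _ => le_rfl, ?_, ?_⟩)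
        · intro i
          by_cases hij : i = j
          · subst hij
            rw [Pi.single_eq_same]
            exact zero_le_one
          · rw [Pi.single_eq_of_ne hij]
        · intro l
          rw [Finset.sum_eq_single (s := Finset.univ) (f := fun j_1 =>
            (Pi.single j 1 : Fin b → ℝ) j_1 * (h j_1 l : ℝ)) j]
          · simp
          · intro i _ hij
            rw [Pi.single_eq_of_ne hij, zero_mul]
          · simp
    have h2 := Submodule.finrank_mono h1
    rw [finrank_span_eq_card hli] at h2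
    simp only [Fintype.card_sum, Fintype.card_fin] at h2 ⊢
    omega
  obtain ⟨N, W, hW⟩ := corank_two B hall VV PP hVV hcodim
  choose s hs using fun m => hW (X' m) (hX'i m) (hpair m)
  obtain ⟨i, j, hij, hsij⟩ := Finite.exists_ne_map_eq_of_infinite s
  obtain ⟨e1⟩ := hs i
  obtain ⟨e2⟩ := hs j
  rw [hsij] at e1
  exact (hX.2 i j hij).elim (e1 ≪≫ₗ e2.symm)

end Pool.Agent.Helper343_Dio
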