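import Pool.Agent.Helper343_Dio.Fin

set_option autoImplicit false

/-!
The Diophantine theorem: if all lattice points lie in the `g`-vector fan, then so does every real
vector `θ` with infinitely many lattice points `p_k` such that `‖N_k θ - p_k‖ ≤ C / N_k`.
-/

namespace Pool.Agent.Helper343_Dio

open Pool.Agent.Helper391_TT Pool.Agent.Helper389_End Filter Topology

universe u

variable {k A : Type u} [Field k] [Ring A] [Algebra k A] {ι : Type} [Fintype ι]

theorem mem_gFan_of_approx [Module.Finite k A] (B : ProjBasis k A ι)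
    (hall : ∀ x : ι → ℤ, re x ∈ B.gFan) (θ : ι → ℝ) (p : ℕ → ι → ℤ) (N : ℕ → ℝ)
    (hN : Tendsto N atTop atTop) (C₁ : ℝ) (h : ∀ i, N i * ‖N i • θ - re (p i)‖ ≤ C₁) :
    θ ∈ B.gFan := by
  classical
  choose F hF cF using fun x : ι → ℤ => rigid_of_mem B x (hall x)
  let S := sys B F hF cF
  have ev1 : ∀ᶠ i in atTop, mx (quoSet B (F (p i)).M) θ = 0 := S.eventually_D θ p N hN C₁ h
  have ev2 : ∀ᶠ i in atTop, mx (subSet B (F (p i)).N) θ = 0 := S.eventually_E θ p N hN C₁ h
  have cmp : ∀ᶠ i in atTop, ∀ᶠ j in atTop,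
      ee (F (p j)) (F (p i)).M = 0 ∧ ee (F (p i)) (F (p j)).M = 0 := by
    filter_upwards [ev1, ev2] with i h1 h2
    filter_upwards [mx_eventually _ θ h1 p N hN C₁ h, mx_eventually _ θ h2 p N hN C₁ h] with j h3 h4
    rw [mx_quoSet B (F (p j)) (hF _) (p j) (cF _)] at h3
    rw [mx_subSet B (F (p j)) (hF _) (p j) (cF _), hh_eq, ← ee_eq_dd] at h4
    exact ⟨by exact_mod_cast h3, by exact_mod_cast h4⟩
  -- a compatible subsequence
  obtain ⟨f, hf1, hf2⟩ := exists_seq_of_forall_finset_exists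
    (fun i : ℕ => (0 < N i) ∧ ∀ᶠ j in atTop,
      ee (F (p j)) (F (p i)).M = 0 ∧ ee (F (p i)) (F (p j)).M = 0)
    (fun i j => i < j ∧ ee (F (p j)) (F (p i)).M = 0 ∧ ee (F (p i)) (F (p j)).M = 0) (by
      intro s hs
      have e1 : ∀ᶠ j in atTop, ∀ i ∈ s, i < j ∧
          ee (F (p j)) (F (p i)).M = 0 ∧ ee (F (p i)) (F (p j)).M = 0 := by
        rw [Filter.eventually_all_finset]
        intro i hi
        filter_upwards [(hs i hi).2, eventually_gt_atTop i] with j h1 h2
        exact ⟨h2, h1⟩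
      obtain ⟨y, ⟨hy1, hy2⟩, hy3⟩ := ((cmp.and (hN.eventually_gt_atTop 0)).and e1).exists
      exact ⟨y, ⟨hy2, hy1⟩, hy3⟩)
  have hmono : StrictMono f := strictMono_nat_of_lt_succ fun n => (hf2 n (n + 1) (by omega)).1
  refine mem_gFan_of_compatible B (fun i => F (p (f i))) (fun i => p (f i)) ?_
    (fun i => cF _) (fun i => N (f i)) (fun i => (hf1 i).1) θ ?_
  · intro i j
    rcases lt_trichotomy i j with hij | hij | hij
    · exact (hf2 i j hij).2.2
    · subst hij
      exact hF _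
    · exact (hf2 j i hij).2.1
  · have hN' : Tendsto (fun i => N (f i)) atTop atTop := hN.comp hmono.tendsto_atTop
    rw [tendsto_iff_norm_sub_tendsto_zero]
    have e1 : Tendsto (fun i => C₁ / N (f i) / N (f i)) atTop (𝓝 0) := by
      have e2 := (hN'.const_div_atTop C₁).mul (tendsto_inv_atTop_zero.comp hN')
      rw [mul_zero] at e2
      exact e2
    refine squeeze_zero (fun i => norm_nonneg _) (fun i => ?_) e1
    have h0 := (hf1 i).1
    have e2 : (N (f i))⁻¹ • re (p (f i)) - θ =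
        -((N (f i))⁻¹ • (N (f i) • θ - re (p (f i)))) := by
      rw [smul_sub, smul_smul, inv_mul_cancel₀ h0.ne', one_smul]
      abel
    rw [e2, norm_neg, norm_smul, norm_inv, Real.norm_eq_abs, abs_of_pos h0, le_div_iff₀ h0,
      le_div_iff₀ h0]
    have h1 := h (f i)
    calc (N (f i))⁻¹ * ‖N (f i) • θ - re (p (f i))‖ * N (f i) * N (f i) =
        ((N (f i))⁻¹ * N (f i)) * (N (f i) * ‖N (f i) • θ - re (p (f i))‖) := by ring
      _ = N (f i) * ‖N (f i) • θ - re (p (f i))‖ := by rw [inv_mul_cancel₀ h0.ne', one_mul]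
      _ ≤ C₁ := h1

end Pool.Agent.Helper343_Dio
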