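import Pool.Agent.Helper343_Dio.FanConv
import Pool.Agent.Helper343_Dio.Dio

set_option autoImplicit false

/-!
Well approximable vectors outside the fan give components.
-/

open Module Pool.Agent.Helper391_TT Filter Topology

namespace Pool.Agent.Helper343_Dio

open Helper343_Tau (IsBasic GenIndec cA homTau Rep)

variable {K : Type} [Field K] {A : Type} [Ring A] [Algebra K A] {n : ℕ} {e : Fin n → A}

theorem component_of_approx [Infinite K] [FiniteDimensional K A] (he : IsBasic K A e)
    (θ : Fin n → ℝ) (hθ : ¬ InFan K A e θ) (C : ℝ)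
    (h : ∀ T : ℝ, ∃ t : ℝ, T < t ∧ ∃ p : Fin n → ℤ, ∀ i, |t * θ i - p i| ≤ C / t) :
    ∃ (d : Fin n → ℕ) (Z : Set (Rep K A e d)), Z ∈ irreducibleComponents (Rep K A e d) ∧
      GenIndec Z ∧ cA Z = homTau Z ∧ 1 ≤ cA Z := by
  classical
  by_contra hcon
  have hall : ∀ x : Fin n → ℤ, re x ∈ (projBasis he).gFan := by
    intro x
    by_contra hx
    exact hcon (component_of_not_mem he (projBasis he) x hx)
  apply hθ
  apply inFan_of_mem he
  choose t ht p hp using fun k : ℕ => h k
  have ht0 : ∀ k, 0 < t k := fun k => lt_of_le_of_lt (Nat.cast_nonneg k) (ht k)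
  refine mem_gFan_of_approx (projBasis he) hall θ p t
    (tendsto_atTop_mono (fun k => (ht k).le) tendsto_natCast_atTop_atTop) (max C 0) fun k => ?_
  rw [mul_comm, ← le_div_iff₀ (ht0 k), pi_norm_le_iff_of_nonneg
    (div_nonneg (le_max_right _ _) (ht0 k).le)]
  intro i
  rw [Real.norm_eq_abs]
  exact (hp k i).trans (div_le_div_of_nonneg_right (le_max_left _ _) (ht0 k).le)

end Pool.Agent.Helper343_Dio
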