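import Pool.Agent.Helper343_Dio.HFan
import Pool.Agent.Helper343_Dio.Trans
import Pool.Agent.Helper343_Dio.Indep

set_option autoImplicit false

/-!
Comparison of the two definitions of the `g`-vector fan.
-/

open Module Pool.Agent.Helper391_TT

namespace Pool.Agent.Helper343_Dio

open Helper343_Tau (IsBasic TauRigid Tau IsMinPres IsPres Superfluous)

section

variable {A : Type} [Ring A] {P₁ P₀ M P₁' P₀' M' : Type} [AddCommGroup P₁] [Module A P₁]
  [AddCommGroup P₀] [Module A P₀] [AddCommGroup M] [Module A M] [AddCommGroup P₁'] [Module A P₁']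
  [AddCommGroup P₀'] [Module A P₀'] [AddCommGroup M'] [Module A M']

theorem superfluous_map {N : Submodule A P₁} (h : Superfluous N) (φ : P₁ ≃ₗ[A] P₁') :
    Superfluous (N.map (φ : P₁ →ₗ[A] P₁')) := by
  intro L hL
  have h1 : L.comap (φ : P₁ →ₗ[A] P₁') = ⊤ := by
    apply h
    rw [eq_top_iff]
    intro x _
    obtain ⟨y, hy, z, hz, hyz⟩ := Submodule.mem_sup.mp
      (hL ▸ Submodule.mem_top : φ x ∈ L ⊔ N.map (φ : P₁ →ₗ[A] P₁'))
    obtain ⟨w, hw, rfl⟩ := hz
    refine Submodule.mem_sup.mpr ⟨φ.symm y, ?_, w, hw, ?_⟩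
    · change φ (φ.symm y) ∈ L
      rw [φ.apply_symm_apply]
      exact hy
    · apply φ.injective
      rw [map_add, φ.apply_symm_apply]
      exact hyz
  rw [eq_top_iff]
  intro x _
  have h2 : φ.symm x ∈ L.comap (φ : P₁ →ₗ[A] P₁') := by rw [h1]; trivial
  have h3 : φ (φ.symm x) ∈ L := h2
  rwa [φ.apply_symm_apply] at h3

/-- transport of a minimal presentation along isomorphisms -/
theorem isMinPres_transport {f : P₁ →ₗ[A] P₀} {q : P₀ →ₗ[A] M} (h : IsMinPres f q)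
    (φ₁ : P₁ ≃ₗ[A] P₁') (φ₀ : P₀ ≃ₗ[A] P₀') (φ : M ≃ₗ[A] M') :
    IsMinPres ((φ₀ : P₀ →ₗ[A] P₀') ∘ₗ f ∘ₗ (φ₁.symm : P₁' →ₗ[A] P₁))
      ((φ : M →ₗ[A] M') ∘ₗ q ∘ₗ (φ₀.symm : P₀' →ₗ[A] P₀)) where
  proj₁ := by
    have := h.proj₁
    exact Module.Projective.of_equiv φ₁
  fin₁ := by
    have := h.fin₁
    exact Module.Finite.equiv φ₁
  proj₀ := by
    have := h.proj₀
    exact Module.Projective.of_equiv φ₀
  fin₀ := by
    have := h.fin₀
    exact Module.Finite.equiv φ₀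
  surj := (φ.surjective.comp h.surj).comp φ₀.symm.surjective
  exact := by
    ext x
    constructor
    · rintro ⟨y, rfl⟩
      change φ (q (φ₀.symm (φ₀ (f (φ₁.symm y))))) = 0
      rw [φ₀.symm_apply_apply]
      have : f (φ₁.symm y) ∈ LinearMap.ker q := h.exact ▸ ⟨_, rfl⟩
      rw [LinearMap.mem_ker.mp this, map_zero]
    · intro hx
      have h1 : φ (q (φ₀.symm x)) = 0 := hx
      have h2 : φ₀.symm x ∈ LinearMap.ker q := φ.map_eq_zero_iff.mp h1
      rw [← h.exact] at h2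
      obtain ⟨y, hy⟩ := h2
      refine ⟨φ₁ y, ?_⟩
      change φ₀ (f (φ₁.symm (φ₁ y))) = x
      rw [φ₁.symm_apply_apply, hy, φ₀.apply_symm_apply]
  min₀ := by
    have h1 : LinearMap.ker ((φ : M →ₗ[A] M') ∘ₗ q ∘ₗ (φ₀.symm : P₀' →ₗ[A] P₀)) =
        (LinearMap.ker q).map (φ₀ : P₀ →ₗ[A] P₀') := by
      ext x
      constructor
      · intro hx
        have h1 : φ (q (φ₀.symm x)) = 0 := hx
        exact ⟨φ₀.symm x, φ.map_eq_zero_iff.mp h1, φ₀.apply_symm_apply x⟩
      · rintro ⟨y, hy, rfl⟩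
        change φ (q (φ₀.symm (φ₀ y))) = 0
        rw [φ₀.symm_apply_apply, LinearMap.mem_ker.mp hy, map_zero]
    rw [h1]
    exact superfluous_map h.min₀ φ₀
  min₁ := by
    have h1 : LinearMap.ker ((φ₀ : P₀ →ₗ[A] P₀') ∘ₗ f ∘ₗ (φ₁.symm : P₁' →ₗ[A] P₁)) =
        (LinearMap.ker f).map (φ₁ : P₁ →ₗ[A] P₁') := by
      ext x
      constructor
      · intro hx
        have h1 : φ₀ (f (φ₁.symm x)) = 0 := hx
        exact ⟨φ₁.symm x, φ₀.map_eq_zero_iff.mp h1, φ₁.apply_symm_apply x⟩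
      · rintro ⟨y, hy, rfl⟩
        change φ₀ (f (φ₁.symm (φ₁ y))) = 0
        rw [φ₁.symm_apply_apply, LinearMap.mem_ker.mp hy, map_zero]
    rw [h1]
    exact superfluous_map h.min₁ φ₁

theorem tauRigid_congr {K : Type} [Field K] [Algebra K A] (φ : M ≃ₗ[A] M')
    (h : TauRigid K A M) : TauRigid K A M' := by
  obtain ⟨P₁, P₀, i1, i2, i3, i4, f, q, hf, hβ⟩ := h
  have h1 := isMinPres_transport hf (LinearEquiv.refl A P₁) (LinearEquiv.refl A P₀) φ
  refine ⟨P₁, P₀, i1, i2, i3, i4, f, (φ : M →ₗ[A] M') ∘ₗ q, h1, fun β => ?_⟩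
  have h2 := hβ (β ∘ₗ (φ : M →ₗ[A] M'))
  refine LinearMap.ext fun x => ?_
  have h3 := LinearMap.congr_fun h2 (φ.symm x)
  change β (φ (φ.symm x)) = 0 at h3
  rwa [φ.apply_symm_apply] at h3

end

variable {K : Type} [Field K] {A : Type} [Ring A] [Algebra K A] {n : ℕ} {e : Fin n → A}
  [FiniteDimensional K A]

theorem hasClass_proj (he : IsBasic K A e) {Q : FM K A} {a : Fin n → ℕ}
    (h : (projBasis he).HasClass Q a) : Nonempty (Q.X ≃ₗ[A] Proj A e a) := by
  classical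
  obtain ⟨m, c, ⟨φ⟩, ha⟩ := h
  have e1 : ∀ i, Nonempty ({j : Fin m // c j = i} ≃ Fin (a i)) := by
    intro i
    rw [ha i]
    exact ⟨Finite.equivFin _⟩
  let ψ : Fin m ≃ Σ i, Fin (a i) :=
    (Equiv.sigmaFiberEquiv c).symm.trans (Equiv.sigmaCongrRight fun i => Classical.choice (e1 i))
  have hψ : ∀ j, (ψ j).1 = c j := fun j => rfl
  have e2 : ((j : Fin m) → Submodule.span A {e (c j)}) ≃ₗ[A] Proj A e a :=
    LinearEquiv.piCongrLeft' A (fun j => Submodule.span A {e (c j)}) ψ ≪≫ₗ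
      LinearEquiv.piCongrRight fun s => LinearEquiv.ofEq _ _ (by
        have h1 : c (ψ.symm s) = s.1 := by rw [← hψ, ψ.apply_symm_apply]
        rw [h1])
  exact ⟨φ ≪≫ₗ e2⟩

theorem isGVector_of (he : IsBasic K A e) {V : FM K A} {g : Fin n → ℤ}
    (h : (projBasis he).IsGVec V g) : IsGVector A e V.X g := by
  obtain ⟨S, a, b, ha, hb, hg⟩ := h
  obtain ⟨φ₀⟩ := hasClass_proj he ha
  obtain ⟨φ₁⟩ := hasClass_proj he hb
  exact ⟨a, b, _, _, isMinPres_transport (ofMinPres S) φ₁ φ₀ (LinearEquiv.refl A V.X), hg⟩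

theorem inFan_of_mem (he : IsBasic K A e) {θ : Fin n → ℝ} (h : θ ∈ (projBasis he).gFan) :
    InFan K A e θ := by
  classical
  obtain ⟨V, P, ⟨hV, hP, hPV⟩, J, J', fJ, fJ', V', P', g, h, α, β, hV', ⟨eV⟩, hg, hP', ⟨eP⟩, hh,
    hα, hβ, hsum⟩ := h
  have hretP : ∀ j, Retract A (P' j).X P.X := fun j =>
    (retract_pi P' j).trans (Retract.of_equiv eP.symm)
  have hretV : ∀ j, Retract A (V' j).X V.X := fun j =>
    (retract_pi V' j).trans (Retract.of_equiv eV.symm)
  have hP'p : ∀ j, Module.Projective A (P' j).X := fun j => proj_of_retract (hretP j)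
  choose c hc using fun j => (projBasis he).all (P' j) (hP'p j) (hP' j)
  have hh' : ∀ j, h j = Pi.single (c j) 1 := fun j => by
    obtain ⟨φ⟩ := hc j
    exact ProjBasis.dd_unit (projBasis he) (P' j) (c j) φ (hP'p j) (h j) (hh j)
  let eJ : J ≃ Fin (Fintype.card J) := Fintype.equivFin J
  refine ⟨Fintype.card J, fun j => ModuleCat.of A (V' (eJ.symm j)).X, fun j => g (eJ.symm j),
    fun j => α (eJ.symm j), fun i => ∑ j, if c j = i then β j else 0, ?_, fun j =>
    isGVector_of he (hg _), fun j => hα _, fun i => ?_, ?_, fun i => ?_⟩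
  · have h1 := tauRigid_of V hV
    exact tauRigid_congr (eV ≪≫ₗ LinearEquiv.piCongrLeft' A (fun j => (V' j).X) eJ) h1
  · refine Finset.sum_nonneg fun j _ => ?_
    split_ifs
    · exact hβ j
    · exact le_rfl
  · intro i hi j v
    obtain ⟨j', -, hj'⟩ := Finset.exists_ne_zero_of_sum_ne_zero hi
    have h1 : c j' = i := by
      by_contra h2
      exact hj' (if_neg h2)
    obtain ⟨φ⟩ := hc j'
    rw [h1] at φ
    have h2 := hom_zero_retract (P := P) (V := V) (P' := (projBasis he).P i)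
      (V' := V' (eJ.symm j)) hPV ((Retract.of_equiv φ.symm).trans (hretP j')) (hretV _)
    have h3 := h2 ((LinearMap.toSpanSingleton A (V' (eJ.symm j)).X v) ∘ₗ
      (Ae A (e i)).subtype)
    have h4 := LinearMap.congr_fun h3 ⟨e i, (mem_Ae (idem he i)).mpr (idem he i)⟩
    exact h4
  · rw [hsum i]
    congr 1
    · exact (Equiv.sum_comp eJ.symm fun j => α j * (g j i : ℝ)).symm
    · refine Finset.sum_congr rfl fun j _ => ?_
      rw [hh' j]
      by_cases hji : c j = i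
      · rw [if_pos hji, hji, Pi.single_eq_same]
        simp
      · rw [if_neg hji, Pi.single_eq_of_ne (Ne.symm hji)]
        simp

end Pool.Agent.Helper343_Dio
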