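import Pool.Agent.Helper343_Dio.Inst
import Pool.Agent.Helper343_Dio.Indep

set_option autoImplicit false

/-!
Limits of the directions of infinitely many compatible lattice points lie in the fan.
-/

namespace Pool.Agent.Helper343_Dio

open Pool.Agent.Helper391_TT Pool.Agent.Helper389_End Filter Topology

universe u

variable {k A : Type u} [Field k] [Ring A] [Algebra k A] {ι : Type} [Fintype ι]

/-- an indecomposable summand of the cokernel of `G` is a summand of the cokernel of one of the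
`Z v`, if the class of `G` is a real linear combination of the classes of the `Z v` -/
theorem retract_span {I : Type} [Fintype I] (Z : I → Obj k A) (G : Obj k A) (hG : Rigid G)
    (hZ : ∀ i j, ee (Z i) (Z j).M = 0) (h1 : ∀ i, ee (Z i) G.M = 0)
    (h2 : ∀ i, ee G (Z i).M = 0) (c : I → ℝ)
    (hc : ∀ X, (chi G X : ℝ) = ∑ i, c i * chi (Z i) X) (V : FM k A) (hV : Indec A V.X)
    (h : Retract A V.X G.M.X) : ∃ i, Retract A V.X (Z i).M.X := by
  classical
  obtain ⟨N, hN⟩ : ∃ N : ℕ, ∀ j, |c j| ≤ N := by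
    obtain ⟨N, hN⟩ := exists_nat_ge (∑ j, |c j|)
    exact ⟨N, fun j => (Finset.single_le_sum (f := fun j => |c j|)
      (fun i _ => abs_nonneg (c i)) (Finset.mem_univ j)).trans hN⟩
  let Y : Option I → Obj k A := fun o => o.elim G Z
  let m : Option I → ℕ := fun o => o.elim 1 fun _ => N
  have hY : ∀ i j, ee (Y i) (Y j).M = 0 := by
    rintro (_ | i) (_ | j)
    · exact hG
    · exact h2 j
    · exact h1 i
    · exact hZ i j
  refine retract_cone Z hZ (fun i => N + c i) (fun i => ?_) (Obj.comb Y m)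
    (rigid_comb Y m hY) (fun X => ?_) V hV (h.trans ?_)
  · have := neg_le_of_abs_le (hN i)
    linarith
  · rw [chi_comb, Fintype.sum_option]
    change (((((1 : ℕ) : ℤ) * chi G X + ∑ i, (N : ℤ) * chi (Z i) X : ℤ)) : ℝ) = _
    push_cast
    rw [hc X, one_mul, ← Finset.sum_add_distrib]
    exact Finset.sum_congr rfl fun i _ => by ring
  · obtain ⟨eF⟩ := pi_M fun j : (Σ i : Option I, Fin (m i)) => Y j.1
    refine Retract.trans ?_ (Retract.of_equiv eF.symm)
    exact retract_pi (fun j : (Σ i : Option I, Fin (m i)) => (Y j.1).M)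
      ⟨none, (⟨0, Nat.one_pos⟩ : Fin 1)⟩

/-- the image of the cone of a sequence of compatible objects -/
theorem mem_gFan_of_compatible [Module.Finite k A] (B : ProjBasis k A ι) (G : ℕ → Obj k A)
    (q : ℕ → ι → ℤ) (hG : ∀ i j, ee (G i) (G j).M = 0) (cG : ∀ i, B.Cls (G i) (q i))
    (N : ℕ → ℝ) (hN : ∀ i, 0 < N i) (θ : ι → ℝ)
    (hθ : Tendsto (fun i => (N i)⁻¹ • re (q i)) atTop (𝓝 θ)) : θ ∈ B.gFan := by
  classical
  -- a finite subset spanning the classes
  have hfg : (Submodule.span ℝ (Set.range fun i => re (q i))).FG := IsNoetherian.noetherian _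
  obtain ⟨s, hs, hs'⟩ := (Submodule.fg_span_iff_fg_span_finset_subset _).mp hfg
  have hidx : ∀ v : {v // v ∈ s}, ∃ i, re (q i) = v.1 := fun v => hs v.2
  choose idx hidx using hidx
  let I := {v // v ∈ s}
  let Z₀ : I → Obj k A := fun v => G (idx v)
  have hspan : ∀ i, ∃ c : I → ℝ, ∀ l, (q i l : ℝ) = ∑ v, c v * (q (idx v) l : ℝ) := by
    intro i
    have h1 : re (q i) ∈ Submodule.span ℝ (Set.range fun v : I => re (q (idx v))) := by
      have h2 : (Set.range fun v : I => re (q (idx v))) = (s : Set (ι → ℝ)) := by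
        ext x
        constructor
        · rintro ⟨v, rfl⟩
          change re (q (idx v)) ∈ _
          rw [hidx v]
          exact v.2
        · intro hx
          exact ⟨⟨x, hx⟩, hidx ⟨x, hx⟩⟩
      rw [h2, ← hs']
      exact Submodule.subset_span ⟨i, rfl⟩
    obtain ⟨c, hc⟩ := (Submodule.mem_span_range_iff_exists_fun ℝ).mp h1
    refine ⟨c, fun l => ?_⟩
    have h2 := congrFun hc l
    rw [Finset.sum_apply] at h2
    exact h2.symm
  -- the indecomposable summands
  choose J fJ V hV eV using fun v : I => exists_decomp (Z₀ v).M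
  let T := Σ v : I, J v
  let W : T → FM k A := fun t => V t.1 t.2
  have hWr : ∀ t : T, Retract A (W t).X (Z₀ t.1).M.X := fun t => by
    obtain ⟨e⟩ := eV t.1
    exact (retract_pi (V t.1) t.2).trans (Retract.of_equiv e.symm)
  let r : Setoid T :=
    { r := fun t t' => Nonempty ((W t).X ≃ₗ[A] (W t').X)
      iseqv :=
        { refl := fun t => ⟨LinearEquiv.refl _ _⟩
          symm := fun ⟨e⟩ => ⟨e.symm⟩
          trans := fun ⟨e⟩ ⟨e'⟩ => ⟨e ≪≫ₗ e'⟩ } }
  let T' := Quotient r
  let fT' : Fintype T' := Fintype.ofFinite _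
  let U : T' → FM k A := fun c => W c.out
  have hU : ∀ c, Indec A (U c).X := fun c => hV _ _
  have hUne : ∀ c c', Nonempty ((U c).X ≃ₗ[A] (U c').X) → c = c' := by
    intro c c' h
    exact Quotient.out_equiv_out.mp h
  have hUW : ∀ t : T, Nonempty ((W t).X ≃ₗ[A] (U (Quotient.mk r t)).X) := by
    intro t
    obtain ⟨e⟩ : Nonempty ((W (Quotient.mk r t).out).X ≃ₗ[A] (W t).X) := Quotient.mk_out t
    exact ⟨e.symm⟩
  have SU : (c : T') → MinPres (U c) := fun c => Classical.choice (exists_minPres (U c))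
  have hGU : ∀ i c, ee (G i) (U c) = 0 := fun i c => ee_of_retract _ (hWr c.out) (hG i _)
  have hcmp : ∀ c c', ee (SU c).obj (U c') = 0 := fun c c' =>
    (SU c).ee_zero' (Z₀ (Quotient.out c).1) (hWr c.out) _ (hGU _ c')
  let Q := {l : ι // ∀ c, dd (B.P l) (U c) = 0}
  choose g hg using fun c => B.exists_gvec (U c)
  choose h hh using fun l : Q => B.exists_gvec (B.P l.1)
  have hdh : ∀ (l : Q) (X : FM k A), (dd (B.P l.1) X : ℝ) =
      ∑ i, (h l i : ℝ) * (dd (B.P i) X : ℝ) := by
    intro l X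
    have e4 := (hh l).cls (MinPres.ofProj (B.P l.1) (B.proj l.1)) X
    rw [MinPres.chi_proj _ (B.proj l.1)] at e4
    have e5 := congrArg (fun z : ℤ => (z : ℝ)) e4
    push_cast at e5
    exact e5
  have hdg : ∀ (c : T') (X : FM k A), (chi (SU c).obj X : ℝ) =
      ∑ i, (g c i : ℝ) * (dd (B.P i) X : ℝ) := by
    intro c X
    rw [(hg c).cls (SU c) X]
    push_cast
    rfl
  have hli := indep B U hU hUne SU hcmp (fun l : Q => B.P l.1) (fun l => B.proj l.1)
    (fun l => B.indec l.1) (fun i j hij => Subtype.ext (B.inj _ _ hij)) (fun l c => l.2 c) g hg h hh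
  let v : T' ⊕ Q → ι → ℝ := fun j => fun i => ((Sum.elim g h j i : ℤ) : ℝ)
  let L : (T' ⊕ Q → ℝ) →ₗ[ℝ] (ι → ℝ) := Fintype.linearCombination ℝ v
  have hL : ∀ (x : T' ⊕ Q → ℝ) (i : ι), L x i = ∑ c, x (Sum.inl c) * (g c i : ℝ) +
      ∑ l, x (Sum.inr l) * (h l i : ℝ) := by
    intro x i
    change (Fintype.linearCombination ℝ v x) i = _
    rw [Fintype.linearCombination_apply, Finset.sum_apply, Fintype.sum_sum_type]
    rfl
  have hLinj : LinearMap.ker L = ⊥ :=
    LinearMap.ker_eq_bot.mpr (linearIndependent_iff_injective_fintypeLinearCombination.mp hli)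
  have hLc : Topology.IsClosedEmbedding L := LinearMap.isClosedEmbedding_of_injective hLinj
  let K₀ : Set (T' ⊕ Q → ℝ) := {x | (∀ c, 0 ≤ x (Sum.inl c)) ∧ ∀ l, x (Sum.inr l) ≤ 0}
  have hK₀ : IsClosed K₀ := by
    have e1 : K₀ = (⋂ c, {x | 0 ≤ x (Sum.inl c)}) ∩ ⋂ l, {x | x (Sum.inr l) ≤ 0} := by
      ext x
      simp only [K₀, Set.mem_ofPred_eq, Set.mem_inter_iff, Set.mem_iInter]
    rw [e1]
    exact (isClosed_iInter fun c => isClosed_le continuous_const (continuous_apply _)).inter
      (isClosed_iInter fun l => isClosed_le (continuous_apply _) continuous_const)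
  -- the classes lie in the image
  have hmem : ∀ i, re (q i) ∈ L '' K₀ := by
    intro i
    obtain ⟨c, hc⟩ := hspan i
    have hchi : ∀ X, (chi (G i) X : ℝ) = ∑ v, c v * (chi (Z₀ v) X : ℝ) := by
      intro X
      rw [cG i X]
      have e1 : ∀ v, c v * (chi (Z₀ v) X : ℝ) =
          ∑ l, c v * ((q (idx v) l : ℝ) * (dd (B.P l) X : ℝ)) := by
        intro v
        rw [cG (idx v) X, ← Finset.mul_sum]
        push_cast
        rfl
      rw [Finset.sum_congr rfl fun v _ => e1 v, Finset.sum_comm]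
      push_cast
      refine Finset.sum_congr rfl fun l _ => ?_
      rw [hc l, Finset.sum_mul]
      exact Finset.sum_congr rfl fun v _ => by ring
    obtain ⟨J', fJ', X, hX, ⟨eX⟩⟩ := exists_decomp (G i).M
    have hXr : ∀ j, Retract A (X j).X (G i).M.X := fun j =>
      (retract_pi X j).trans (Retract.of_equiv eX.symm)
    have hex : ∀ j, ∃ c : T', Nonempty ((X j).X ≃ₗ[A] (U c).X) := by
      intro j
      obtain ⟨v, hv⟩ := retract_span Z₀ (G i) (hG i i) (fun v w => hG _ _) (fun v => hG _ _)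
        (fun v => hG _ _) c hchi (X j) (hX j) (hXr j)
      obtain ⟨ev⟩ := eV v
      obtain ⟨j', ⟨ej⟩⟩ := iso_of_retract_pi (hV v) (hX j) (hv.trans (Retract.of_equiv ev))
      obtain ⟨eU⟩ := hUW ⟨v, j'⟩
      exact ⟨Quotient.mk r ⟨v, j'⟩, ⟨ej ≪≫ₗ eU⟩⟩
    choose γ hγ using hex
    have S : (j : J') → MinPres (X j) := fun j => Classical.choice (exists_minPres (X j))
    let ZZ : MinPres (G i).M := (MinPres.pi S).congr (V := FM.pi X) (W := (G i).M) eX.symm
    have hZZ : ∀ Y, chi ZZ.obj Y = ∑ j, chi (S j).obj Y := fun Y =>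
      chi_pi (fun j => (S j).obj) Y
    obtain ⟨R, hRp, hRc, hRe⟩ := chi_decomp ZZ (G i) (LinearEquiv.refl A (G i).M.X)
    obtain ⟨b, hb⟩ := B.exists_class R hRp
    have hbQ : ∀ l, b l ≠ 0 → ∀ c, dd (B.P l) (U c) = 0 := by
      intro l hl c
      have e1 : dd R (U c) = 0 := dd_eq_zero_of (hRe (U c) (hGU i c))
      rw [hb.dd_eq] at e1
      have e2 := (Finset.sum_eq_zero_iff.mp e1) l (Finset.mem_univ l)
      exact (Nat.mul_eq_zero.mp e2).resolve_left hl
    let x : T' ⊕ Q → ℝ := Sum.elim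
      (fun c => ((Finset.univ.filter fun j => γ j = c).card : ℝ)) fun l => -(b l.1 : ℝ)
    refine ⟨x, ⟨fun c => Nat.cast_nonneg _, fun l => neg_nonpos.mpr (Nat.cast_nonneg _)⟩, ?_⟩
    funext l
    have key := B.inj_real (fun l => L x l - (q i l : ℝ)) (fun Y => ?_) l
    · exact sub_eq_zero.mp key
    · have e1 : ∑ l, (q i l : ℝ) * (dd (B.P l) Y : ℝ) = (chi (G i) Y : ℝ) := by
        rw [cG i Y]
        push_cast
        rfl
      have e2 : ∑ l, L x l * (dd (B.P l) Y : ℝ) =
          ∑ c, x (Sum.inl c) * (chi (SU c).obj Y : ℝ) +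
            ∑ l : Q, x (Sum.inr l) * (dd (B.P l.1) Y : ℝ) := by
        rw [Finset.sum_congr rfl fun l _ => by rw [hL x l, add_mul, Finset.sum_mul,
          Finset.sum_mul], Finset.sum_add_distrib, Finset.sum_comm,
          Finset.sum_comm (f := fun l (j : Q) => x (Sum.inr j) * (h j l : ℝ) *
            (dd (B.P l) Y : ℝ))]
        congr 1
        · refine Finset.sum_congr rfl fun c _ => ?_
          rw [hdg c Y, Finset.mul_sum]
          exact Finset.sum_congr rfl fun l _ => by ring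
        · refine Finset.sum_congr rfl fun j _ => ?_
          rw [hdh j Y, Finset.mul_sum]
          exact Finset.sum_congr rfl fun l _ => by ring
      simp only [sub_mul]
      rw [Finset.sum_sub_distrib, e1, e2]
      -- the class of `G i`
      have e3 : (chi (G i) Y : ℝ) = ∑ j, (chi (S j).obj Y : ℝ) - (dd R Y : ℝ) := by
        have := hRc Y
        rw [hZZ] at this
        rw [this]
        push_cast
        rfl
      have e4 : ∑ j, (chi (S j).obj Y : ℝ) = ∑ c, x (Sum.inl c) * (chi (SU c).obj Y : ℝ) := by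
        have e5 : ∀ j, (chi (S j).obj Y : ℝ) = (chi (SU (γ j)).obj Y : ℝ) := by
          intro j
          obtain ⟨e⟩ := hγ j
          rw [(S j).chi_unique (SU (γ j)) e Y]
        rw [Finset.sum_congr rfl fun j _ => e5 j, ← Finset.sum_fiberwise Finset.univ γ]
        refine Finset.sum_congr rfl fun c _ => ?_
        rw [Finset.sum_congr rfl fun j hj => by rw [(Finset.mem_filter.mp hj).2],
          Finset.sum_const, nsmul_eq_mul]
        rfl
      have e6 : (dd R Y : ℝ) = -∑ l : Q, x (Sum.inr l) * (dd (B.P l.1) Y : ℝ) := by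
        rw [hb.dd_eq, ← Finset.sum_neg_distrib]
        push_cast
        have e7 : ∑ l ∈ Finset.univ.filter (fun l => ∀ c, dd (B.P l) (U c) = 0),
            (b l : ℝ) * (dd (B.P l) Y : ℝ) = ∑ l, (b l : ℝ) * (dd (B.P l) Y : ℝ) := by
          refine Finset.sum_filter_of_ne fun l _ hl => hbQ l fun h0 => hl ?_
          rw [h0]
          simp
        rw [← e7, Finset.sum_subtype (p := fun l => ∀ c, dd (B.P l) (U c) = 0) _
          (fun l => by simp)]
        refine Finset.sum_congr rfl fun l _ => ?_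
        change _ = -(-(b l.1 : ℝ) * _)
        ring
      rw [e3, e4, e6]
      ring
  -- the limit
  have hmem' : ∀ i, (N i)⁻¹ • re (q i) ∈ L '' K₀ := by
    intro i
    obtain ⟨x, ⟨hx1, hx2⟩, hx⟩ := hmem i
    have h0 : 0 ≤ (N i)⁻¹ := inv_nonneg.mpr (hN i).le
    refine ⟨(N i)⁻¹ • x, ⟨fun c => mul_nonneg h0 (hx1 c), fun l =>
      mul_nonpos_of_nonneg_of_nonpos h0 (hx2 l)⟩, ?_⟩
    rw [map_smul, hx]
  obtain ⟨x, ⟨hx1, hx2⟩, hx⟩ := (hLc.isClosedMap K₀ hK₀).mem_of_tendsto hθ
    (Eventually.of_forall hmem')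
  -- the family
  let Z : T' ⊕ Q → Obj k A := Sum.elim (fun c => (SU c).obj)
    fun l => Obj.shift (B.P l.1) (B.proj l.1)
  obtain ⟨V', P', hVP, hcone⟩ := mem_cone_of_family B Z (by
    rintro (i | i) (j | j)
    · change ee (SU i).obj (SU j).obj.M = 0
      rw [ee_congr (SU i).obj (X := (SU j).obj.M) (Y := U j) (SU j).iso]
      exact hcmp i j
    · exact ee_subsingleton _ _ (shift_M (B.P j.1) (B.proj j.1))
    · change ee (Obj.shift (B.P i.1) (B.proj i.1)) (SU j).obj.M = 0
      rw [ee_congr (Obj.shift (B.P i.1) (B.proj i.1)) (X := (SU j).obj.M) (Y := U j) (SU j).iso]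
      exact ee_shift _ _ _ (i.2 j)
    · exact ee_subsingleton _ _ (shift_M (B.P j.1) (B.proj j.1)))
    (Sum.elim g fun l i => -h l i) (by
    rintro (c | l) X
    · exact (hg c).cls (SU c) X
    · change chi (Obj.shift (B.P l.1) (B.proj l.1)) X = ∑ i, -h l i * _
      rw [chi_shift]
      have e4 := (hh l).cls (MinPres.ofProj (B.P l.1) (B.proj l.1)) X
      rw [MinPres.chi_proj _ (B.proj l.1)] at e4
      rw [e4, ← Finset.sum_neg_distrib]
      exact Finset.sum_congr rfl fun i _ => by ring)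
  refine ⟨V', P', hVP, ?_⟩
  have h1 := hcone (Sum.elim (fun c => x (Sum.inl c)) fun l => -x (Sum.inr l)) (by
    rintro (c | l)
    · exact hx1 c
    · exact neg_nonneg.mpr (hx2 l))
  have h2 : (fun l => ∑ i, (Sum.elim (fun c => x (Sum.inl c)) (fun l => -x (Sum.inr l)) i : ℝ) *
      ((Sum.elim g (fun l i => -h l i) i l : ℤ) : ℝ)) = θ := by
    rw [← hx]
    funext l
    rw [hL x l, Fintype.sum_sum_type]
    congr 1
    refine Finset.sum_congr rfl fun j _ => ?_
    change -x (Sum.inr j) * ((-h j l : ℤ) : ℝ) = _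
    push_cast
    ring
  rw [h2] at h1
  exact h1

end Pool.Agent.Helper343_Dio
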