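import Pool.Agent.Helper343_Dio.Trans
import Pool.Agent.Helper343_Dio.HDefs
import Pool.Agent.Helper389_End.Pair

set_option autoImplicit false

/-!
Components from slowly growing `Hom`-spaces between `τ`-rigid modules.
-/

open Module Pool.Agent.Helper391_TT

namespace Pool.Agent.Helper343_Dio

open Helper343_Tau (IsBasic TauRigid GenIndec cA homTau Rep kMod kMod_tower IsMinPres Tau)

section

variable {K : Type} [Field K] {A : Type} [Ring A] [Algebra K A] [FiniteDimensional K A]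

theorem homTauEq {V W : FM K A} {t : ℕ} (h : HomTauEq K A W.X V.X t) :
    ∃ S : MinPres V, Module.finrank K (W.X →ₗ[A] S.tau) = t := by
  obtain ⟨P₁, P₀, i1, i2, i3, i4, f, q, hf, rfl⟩ := h
  let S := toMinPres V f q hf
  refine ⟨S, ?_⟩
  have h1 : Module.finrank K (W.X →ₗ[A] Tau K S.f) = ee S.obj W := finrank_tau V W S
  exact (ee_eq_dd S.obj W).symm.trans h1.symm

omit [FiniteDimensional K A] in
theorem gFan_smul {ι : Type} (B : ProjBasis K A ι) {x : ι → ℝ} (hx : x ∈ B.gFan) {t : ℝ}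
    (ht : 0 ≤ t) : t • x ∈ B.gFan := by
  obtain ⟨V, P, hVP, J, J', fJ, fJ', V', P', g, h, α, β, h1, h2, h3, h4, h5, h6, h7, h8, h9⟩ := hx
  refine ⟨V, P, hVP, J, J', fJ, fJ', V', P', g, h, fun j => t * α j, fun j => t * β j, h1, h2, h3,
    h4, h5, h6, fun j => mul_nonneg ht (h7 j), fun j => mul_nonneg ht (h8 j), fun l => ?_⟩
  rw [Pi.smul_apply, smul_eq_mul, h9 l, mul_sub, Finset.mul_sum, Finset.mul_sum]
  congr 1
  · exact Finset.sum_congr rfl fun j _ => by ring
  · exact Finset.sum_congr rfl fun j _ => by ring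

omit [FiniteDimensional K A] in
theorem rat_of_lat {ι : Type} [Fintype ι] (B : ProjBasis K A ι)
    (h : ∀ x : ι → ℤ, (fun i => (x i : ℝ)) ∈ B.gFan) (v : ι → ℚ) :
    (fun i => (v i : ℝ)) ∈ B.gFan := by
  classical
  let D : ℕ := ∏ i, (v i).den
  have hD : 0 < D := Finset.prod_pos fun i _ => (v i).den_pos
  have hd : ∀ i, ∃ z : ℤ, (z : ℚ) = D * v i := by
    intro i
    obtain ⟨m, hm⟩ : (v i).den ∣ D := Finset.dvd_prod_of_mem _ (Finset.mem_univ i)
    refine ⟨m * (v i).num, ?_⟩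
    have h1 := Rat.mul_den_eq_num (v i)
    rw [hm]
    push_cast
    rw [← h1]
    ring
  choose z hz using hd
  have h1 := gFan_smul B (h z) (t := 1 / (D : ℝ)) (by positivity)
  have h2 : (1 / (D : ℝ)) • (fun i => (z i : ℝ)) = fun i => (v i : ℝ) := by
    funext i
    have h3 : ((z i : ℚ) : ℝ) = ((D * v i : ℚ) : ℝ) := by rw [hz i]
    push_cast at h3
    rw [Pi.smul_apply, smul_eq_mul, h3]
    field_simp
  rwa [h2] at h1

end

variable {K : Type} [Field K] {A : Type} [Ring A] [Algebra K A] {n : ℕ} {e : Fin n → A}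

theorem growth_aux [FiniteDimensional K A] {ι : Type} [Fintype ι] (B : ProjBasis K A ι)
    (hall : ∀ x : ι → ℤ, (fun i => (x i : ℝ)) ∈ B.gFan) :
    ∃ (m : ℕ) (c : ℝ), 0 < c ∧ ∀ V : Fin m → FM K A,
      (∀ i, IsTauRigid (V i) ∧ Nontrivial (V i).X) →
      ¬ ∀ i j, i < j → ∃ S : MinPres (V i),
        (Module.finrank K ((V i).X →ₗ[A] (V j).X) : ℝ) <
          Module.finrank K ((V j).X →ₗ[A] S.tau) +
            c * Module.finrank K (V i).X * Module.finrank K (V j).X := by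
  obtain ⟨c, m, f, hc, hf⟩ := Helper389_End.colouring B (fun v _ => rat_of_lat B hall v)
  refine ⟨m + 1, c, hc, fun V hV hlt => ?_⟩
  obtain ⟨i, j, hij, heq⟩ := Fintype.exists_ne_map_eq_of_card_lt (fun i => f (V i)) (by simp)
  have key : ∀ i j : Fin (m + 1), i < j → f (V i) = f (V j) → False := by
    intro i j hij heq
    obtain ⟨S, hS⟩ := hlt i j hij
    have h3 := hf (V i) (V j) (hV i).1 (hV j).1 (hV i).2 (hV j).2 heq S
    linarith
  rcases lt_or_gt_of_ne hij with h3 | h3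
  · exact key i j h3 heq
  · exact key j i h3 heq.symm

theorem component_of_growth [Infinite K] [FiniteDimensional K A] (he : IsBasic K A e)
    (h : ∀ (m : ℕ) (c : ℝ), 0 < c → ∃ V : Fin m → ModuleCat.{0} A,
      (∀ i, Module.Finite A (V i) ∧ Nontrivial (V i) ∧ TauRigid K A (V i)) ∧
      ∀ i j, i < j → ∃ t, HomTauEq K A (V j) (V i) t ∧
        (homDim K A (V i) (V j) : ℝ) < t + c * kDim K A (V i) * kDim K A (V j)) :
    ∃ (d : Fin n → ℕ) (Z : Set (Rep K A e d)), Z ∈ irreducibleComponents (Rep K A e d) ∧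
      GenIndec Z ∧ cA Z = homTau Z ∧ 1 ≤ cA Z := by
  classical
  by_contra hcon
  have hall : ∀ x : Fin n → ℤ, (fun i => (x i : ℝ)) ∈ (projBasis he).gFan := by
    intro x
    by_contra hx
    exact hcon (component_of_not_mem he (projBasis he) x hx)
  obtain ⟨m, c, hc, hm⟩ := growth_aux (projBasis he) hall
  obtain ⟨V, hV, hlt⟩ := h m c hc
  refine hm (fun i => ofMod K (V i) (hV i).1)
    (fun i => ⟨isTauRigid_of _ (hV i).2.2, (hV i).2.1⟩) fun i j hij => ?_
  obtain ⟨t, ht, hle⟩ := hlt i j hij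
  obtain ⟨S, rfl⟩ := homTauEq (V := ofMod K (V i) (hV i).1) (W := ofMod K (V j) (hV j).1) ht
  exact ⟨S, hle⟩

theorem component_of_bounded_end [Infinite K] [FiniteDimensional K A] (he : IsBasic K A e)
    (N : ℕ) (V : ℕ → ModuleCat.{0} A)
    (hV : ∀ i, Module.Finite A (V i) ∧ Helper343_Tau.Indec A (V i) ∧ TauRigid K A (V i) ∧
      homDim K A (V i) (V i) ≤ N)
    (hne : ∀ i j, i ≠ j → IsEmpty (V i ≃ₗ[A] V j)) :
    ∃ (d : Fin n → ℕ) (Z : Set (Rep K A e d)), Z ∈ irreducibleComponents (Rep K A e d) ∧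
      GenIndec Z ∧ cA Z = homTau Z ∧ 1 ≤ cA Z := by
  classical
  by_contra hcon
  have hall : ∀ x : Fin n → ℤ, (fun i => (x i : ℝ)) ∈ (projBasis he).gFan := by
    intro x
    by_contra hx
    exact hcon (component_of_not_mem he (projBasis he) x hx)
  have h1 : ∃ (m : ℕ) (W : Fin m → FM K A), ∀ V : FM K A, Helper391_TT.Indec A V.X →
      IsTauRigid V → Module.finrank K (V.X →ₗ[A] V.X) ≤ N →
      ∃ i, Nonempty (V.X ≃ₗ[A] (W i).X) := by
    by_contra h2
    obtain ⟨v, -, hv⟩ := Helper389_End.finite_form (projBasis he) N h2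
    exact hv (rat_of_lat (projBasis he) hall v)
  obtain ⟨m, W, hW⟩ := h1
  choose s hs using fun i => hW (ofMod K (V i) (hV i).1) (hV i).2.1
    (isTauRigid_of _ (hV i).2.2.1) (hV i).2.2.2
  obtain ⟨i, j, hij, hsij⟩ := Finite.exists_ne_map_eq_of_infinite s
  obtain ⟨e1⟩ := hs i
  obtain ⟨e2⟩ := hs j
  rw [hsij] at e1
  exact (hne i j hij).elim (e1 ≪≫ₗ e2.symm)

end Pool.Agent.Helper343_Dio
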