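import Pool.Agent.Helper343_Tau.Defs

set_option autoImplicit false

/-!
The `g`-vector fan of a basic algebra, in terms of the idempotents `e i`.
-/

open Module

namespace Pool.Agent.Helper343_Dio

/-- The projective module `⊕ i, (A e_i) ^ (a i)`. -/
abbrev Proj (A : Type) [Ring A] {n : ℕ} (e : Fin n → A) (a : Fin n → ℕ) : Type :=
  (s : Σ i, Fin (a i)) → Submodule.span A {e s.1}

/-- `g` is the `g`-vector of `V`: there is a minimal projective presentation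
`⊕ (A e_i) ^ (b i) → ⊕ (A e_i) ^ (a i) → V → 0` with `g = a - b`. -/
def IsGVector (A : Type) [Ring A] {n : ℕ} (e : Fin n → A) (V : Type) [AddCommGroup V]
    [Module A V] (g : Fin n → ℤ) : Prop :=
  ∃ (a b : Fin n → ℕ) (f : Proj A e b →ₗ[A] Proj A e a) (q : Proj A e a →ₗ[A] V),
    Helper343_Tau.IsMinPres f q ∧ ∀ i, g i = (a i : ℤ) - b i

/-- `θ` lies in the `g`-vector fan: there are modules `V j` whose direct sum is tau-rigid and
coefficients `α j ≥ 0`, `β i ≥ 0` with `θ = ∑ j, α j • g(V j) - ∑ i, β i • [A e_i]`, where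
`Hom_A(A e_i, V j) = e_i V j = 0` for all `i` with `β i ≠ 0`. -/
def InFan (K : Type) [Field K] (A : Type) [Ring A] [Algebra K A] {n : ℕ} (e : Fin n → A)
    (θ : Fin n → ℝ) : Prop :=
  ∃ (m : ℕ) (V : Fin m → ModuleCat.{0} A) (g : Fin m → Fin n → ℤ) (α : Fin m → ℝ)
    (β : Fin n → ℝ), Helper343_Tau.TauRigid K A (∀ j, V j) ∧ (∀ j, IsGVector A e (V j) (g j)) ∧
    (∀ j, 0 ≤ α j) ∧ (∀ i, 0 ≤ β i) ∧ (∀ i, β i ≠ 0 → ∀ j (v : V j), e i • v = 0) ∧
    ∀ i, θ i = ∑ j, α j * (g j i : ℝ) - β i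

end Pool.Agent.Helper343_Dio
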