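import Pool.Agent.Helper343_Dio.Seq
import Pool.Agent.Helper389_End.Mod

set_option autoImplicit false

/-!
The families of functionals given by the rigid objects, when all lattice points lie in the fan.
-/

namespace Pool.Agent.Helper343_Dio

open Pool.Agent.Helper391_TT Pool.Agent.Helper389_End Filter Topology

universe u

variable {k A : Type u} [Field k] [Ring A] [Algebra k A] {ι : Type} [Fintype ι]

omit [Fintype ι] in
theorem quo_finite (B : ProjBasis k A ι) [Fintype ι] (X : FM k A) :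
    {d : ι → ℤ | ∃ N : Submodule A X.X, -dv B (X.quo N) = d}.Finite := by
  classical
  refine (Set.finite_Icc (-dv B X) (0 : ι → ℤ)).subset ?_
  rintro _ ⟨N, rfl⟩
  refine ⟨fun j => ?_, fun j => ?_⟩
  · have := B.proj j
    have h1 := dd_add (B.P j) X N
    change -((dd (B.P j) X : ℕ) : ℤ) ≤ -((dd (B.P j) (X.quo N) : ℕ) : ℤ)
    omega
  · change -((dd (B.P j) (X.quo N) : ℕ) : ℤ) ≤ 0
    omega

/-- the negatives of the dimension vectors of the quotients of a module -/
noncomputable def quoSet (B : ProjBasis k A ι) (X : FM k A) : Finset (ι → ℤ) :=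
  (quo_finite B X).toFinset

/-- the dimension vectors of the submodules of a module -/
noncomputable def subSet (B : ProjBasis k A ι) (X : FM k A) : Finset (ι → ℤ) :=
  (dv_finite B X).toFinset

theorem mem_quoSet (B : ProjBasis k A ι) (X : FM k A) (d : ι → ℤ) :
    d ∈ quoSet B X ↔ ∃ N : Submodule A X.X, -dv B (X.quo N) = d := Set.Finite.mem_toFinset _

theorem mem_subSet (B : ProjBasis k A ι) (X : FM k A) (d : ι → ℤ) :
    d ∈ subSet B X ↔ ∃ N : Submodule A X.X, dv B (X.sub N) = d := Set.Finite.mem_toFinset _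

theorem ip_neg' (x : ι → ℝ) (d : ι → ℤ) : ip x (-d) = -ip x d := by
  unfold ip
  rw [← Finset.sum_neg_distrib]
  refine Finset.sum_congr rfl fun i _ => ?_
  rw [Pi.neg_apply]
  push_cast
  ring

theorem ip_re_quo (B : ProjBasis k A ι) (F : Obj k A) (x : ι → ℤ) (hx : B.Cls F x) (X : FM k A) :
    ip (re x) (-dv B X) = -(chi F X : ℝ) := by
  rw [ip_neg', ip_dv B F x hx]

theorem mx_quoSet (B : ProjBasis k A ι) (F : Obj k A) (hF : Rigid F) (x : ι → ℤ)
    (hx : B.Cls F x) (X : FM k A) : mx (quoSet B X) (re x) = (ee F X : ℝ) := by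
  apply le_antisymm
  · refine mx_le (Nat.cast_nonneg _) fun d hd => ?_
    obtain ⟨N, rfl⟩ := (mem_quoSet B X d).mp hd
    rw [ip_re_quo B F x hx]
    have h1 := hh_sub_ee F (X.quo N)
    have h2 := ee_le_of_surj F (X := X) (Y := X.quo N) N.mkQ N.mkQ_surjective
    have h3 : -chi F (X.quo N) ≤ (ee F X : ℤ) := by omega
    exact_mod_cast h3
  · obtain ⟨N, h1, -⟩ := ee_formula F hF X
    have h2 := ip_le_mx ((mem_quoSet B X _).mpr ⟨N, rfl⟩) (re x)
    rw [ip_re_quo B F x hx] at h2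
    have h3 : ((ee F X : ℤ) : ℝ) ≤ ((-chi F (X.quo N) : ℤ) : ℝ) := by exact_mod_cast h1
    push_cast at h3
    exact h3.trans h2

theorem mx_subSet (B : ProjBasis k A ι) (F : Obj k A) (hF : Rigid F) (x : ι → ℤ)
    (hx : B.Cls F x) (X : FM k A) : mx (subSet B X) (re x) = (hh F X : ℝ) := by
  apply le_antisymm
  · refine mx_le (Nat.cast_nonneg _) fun d hd => ?_
    obtain ⟨N, rfl⟩ := (mem_subSet B X d).mp hd
    rw [ip_dv B F x hx]
    have h1 := hh_sub_ee F (X.sub N)
    have h2 : hh F (X.sub N) ≤ hh F X := by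
      rw [hh_eq, hh_eq]
      exact dd_le_sub F.M X N
    have h3 : chi F (X.sub N) ≤ (hh F X : ℤ) := by omega
    exact_mod_cast h3
  · obtain ⟨N, h1, -⟩ := hh_formula F hF X
    have h2 := ip_le_mx ((mem_subSet B X _).mpr ⟨N, rfl⟩) (re x)
    rw [ip_dv B F x hx] at h2
    have h3 : ((hh F X : ℤ) : ℝ) ≤ ((chi F (X.sub N) : ℤ) : ℝ) := by exact_mod_cast h1
    push_cast at h3
    exact h3.trans h2

/-- a bound for the values of the functionals of a fixed finite set -/
theorem exists_mx_bound (D : Finset (ι → ℤ)) : ∃ c : ℝ, 0 ≤ c ∧ ∀ x : ι → ℝ, mx D x ≤ c * ‖x‖ := by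
  refine ⟨∑ d ∈ D, ∑ j, |(d j : ℝ)|, Finset.sum_nonneg fun d _ => Finset.sum_nonneg fun j _ =>
    abs_nonneg _, fun x => ?_⟩
  refine mx_le_norm (Finset.sum_nonneg fun d _ => Finset.sum_nonneg fun j _ => abs_nonneg _)
    (fun d hd => ?_) x
  exact Finset.single_le_sum (f := fun d : ι → ℤ => ∑ j, |(d j : ℝ)|)
    (fun d _ => Finset.sum_nonneg fun j _ => abs_nonneg _) hd

section sys

variable [Module.Finite k A]

theorem exists_C (B : ProjBasis k A ι) : ∃ C : ℝ, 0 ≤ C ∧ ∀ (F : Obj k A) (x : ι → ℤ), Rigid F →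
    B.Cls F x → (∀ j, (dd (B.P j) F.M : ℝ) ≤ C * ‖re x‖) ∧
      ∀ j, (dd (B.P j) F.N : ℝ) ≤ C * ‖re x‖ := by
  classical
  choose c hc h1 using fun j => exists_mx_bound (subSet B (inj B j))
  choose c' hc' h1' using fun j => exists_mx_bound (quoSet B (B.P j))
  have hcs : ∀ j, c j ≤ ∑ i, c i := fun j => Finset.single_le_sum (f := c) (fun i _ => hc i)
    (Finset.mem_univ j)
  have hcs' : ∀ j, c' j ≤ ∑ i, c' i := fun j => Finset.single_le_sum (f := c') (fun i _ => hc' i)
    (Finset.mem_univ j)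
  have hs : 0 ≤ ∑ i, c i := Finset.sum_nonneg fun i _ => hc i
  have hs' : 0 ≤ ∑ i, c' i := Finset.sum_nonneg fun i _ => hc' i
  refine ⟨∑ i, c i + ∑ i, c' i, add_nonneg hs hs', fun F x hF hx => ⟨fun j => ?_, fun j => ?_⟩⟩
  · have e1 := h1 j (re x)
    rw [mx_subSet B F hF x hx, hh_eq, ← dd_inj] at e1
    refine e1.trans (mul_le_mul_of_nonneg_right ?_ (norm_nonneg _))
    linarith [hcs j]
  · have e1 := h1' j (re x)
    rw [mx_quoSet B F hF x hx, ee_eq_dd] at e1
    refine e1.trans (mul_le_mul_of_nonneg_right ?_ (norm_nonneg _))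
    linarith [hcs' j]

theorem hom_ext_quo {X : FM k A} {N : Submodule A X.X} (h : dd X (X.quo N) = 0) (Y : FM k A) :
    dd Y (X.quo N) = 0 := by
  have hz := dd_eq_zero h N.mkQ
  apply dd_eq_zero_of
  intro φ
  refine LinearMap.ext fun x => ?_
  obtain ⟨y, hy⟩ := N.mkQ_surjective (φ x)
  rw [← hy, hz]
  rfl

theorem hom_ext_sub {X : FM k A} {L : Submodule A X.X} (h : dd (X.sub L) X = 0) (Y : FM k A) :
    dd Y (X.sub L) = 0 := by
  have hz := dd_eq_zero h L.subtype
  apply dd_eq_zero_of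
  intro φ
  refine LinearMap.ext fun x => ?_
  apply L.subtype_injective
  rw [hz]
  rfl

/-- the dual families of functionals -/
noncomputable def sys (B : ProjBasis k A ι) (F : (ι → ℤ) → Obj k A) (hF : ∀ x, Rigid (F x))
    (cF : ∀ x, B.Cls (F x) x) : Sys ι where
  D p := quoSet B (F p).M
  E p := subSet B (F p).N
  C := Fintype.card ι * (exists_C B).choose
  C_nonneg := mul_nonneg (Nat.cast_nonneg _) (exists_C B).choose_spec.1
  bD p d hd := by
    obtain ⟨N, rfl⟩ := (mem_quoSet B _ d).mp hd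
    have h1 : ∀ j ∈ Finset.univ, |((-dv B ((F p).M.quo N)) j : ℝ)| ≤
        (exists_C B).choose * ‖re p‖ := by
      intro j _
      have h2 := ((exists_C B).choose_spec.2 (F p) p (hF p) (cF p)).1 j
      have := B.proj j
      have h3 := dd_add (B.P j) (F p).M N
      have h4 : |((-dv B ((F p).M.quo N)) j : ℝ)| = (dd (B.P j) ((F p).M.quo N) : ℝ) := by
        change |(((-((dd (B.P j) ((F p).M.quo N) : ℕ) : ℤ)) : ℤ) : ℝ)| = _
        push_cast
        rw [abs_neg, Nat.abs_cast]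
      rw [h4]
      refine le_trans ?_ h2
      exact_mod_cast (by omega : dd (B.P j) ((F p).M.quo N) ≤ dd (B.P j) (F p).M)
    refine (Finset.sum_le_sum h1).trans (le_of_eq ?_)
    rw [Finset.sum_const, nsmul_eq_mul, Finset.card_univ]
    ring
  bE p d hd := by
    obtain ⟨N, rfl⟩ := (mem_subSet B _ d).mp hd
    have h1 : ∀ j ∈ Finset.univ, |((dv B ((F p).N.sub N)) j : ℝ)| ≤
        (exists_C B).choose * ‖re p‖ := by
      intro j _
      have h2 := ((exists_C B).choose_spec.2 (F p) p (hF p) (cF p)).2 j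
      have h3 := dd_le_sub (B.P j) (F p).N N
      have h4 : |((dv B ((F p).N.sub N)) j : ℝ)| = (dd (B.P j) ((F p).N.sub N) : ℝ) := by
        change |((((dd (B.P j) ((F p).N.sub N) : ℕ) : ℤ) : ℤ) : ℝ)| = _
        push_cast
        rw [Nat.abs_cast]
      rw [h4]
      refine le_trans ?_ h2
      exact_mod_cast h3
    refine (Finset.sum_le_sum h1).trans (le_of_eq ?_)
    rw [Finset.sum_const, nsmul_eq_mul, Finset.card_univ]
    ring
  nD p d hd := by
    obtain ⟨N, rfl⟩ := (mem_quoSet B _ d).mp hd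
    rw [ip_re_quo B (F p) p (cF p)]
    have h1 := hh_sub_ee (F p) ((F p).M.quo N)
    have h2 := ee_le_of_surj (F p) (X := (F p).M) (Y := (F p).M.quo N) N.mkQ N.mkQ_surjective
    have h3 : ee (F p) (F p).M = 0 := hF p
    rw [hh_eq] at h1
    by_cases h0 : dd (F p).M ((F p).M.quo N) = 0
    · left
      funext j
      change -((dd (B.P j) ((F p).M.quo N) : ℕ) : ℤ) = 0
      rw [hom_ext_quo h0 (B.P j)]
      rfl
    · right
      have h4 : (1 : ℤ) ≤ chi (F p) ((F p).M.quo N) := by omega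
      have h5 : (1 : ℝ) ≤ (chi (F p) ((F p).M.quo N) : ℝ) := by exact_mod_cast h4
      linarith
  nE p d hd := by
    obtain ⟨L, rfl⟩ := (mem_subSet B _ d).mp hd
    have e0 : ip (re p) (dv B ((F p).N.sub L)) = (chi (F p) ((F p).N.sub L) : ℝ) :=
      ip_dv B (F p) p (cF p) _
    rw [e0]
    have h1 := hh_sub_ee (F p) ((F p).N.sub L)
    have h2 : hh (F p) ((F p).N.sub L) ≤ dd (F p).M (F p).N := by
      rw [hh_eq]
      exact dd_le_sub (F p).M (F p).N L
    have h3 : ee (F p) (F p).M = 0 := hF p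
    rw [ee_eq_dd] at h3 h1
    by_cases h0 : dd ((F p).N.sub L) (F p).N = 0
    · left
      funext j
      change ((dd (B.P j) ((F p).N.sub L) : ℕ) : ℤ) = 0
      rw [hom_ext_sub h0 (B.P j)]
      rfl
    · right
      have h4 : chi (F p) ((F p).N.sub L) ≤ -1 := by omega
      exact_mod_cast h4
  dual p x := by
    rw [mx_quoSet B (F x) (hF x) x (cF x), mx_subSet B (F p) (hF p) p (cF p), hh_eq, ee_eq_dd]

end sys

end Pool.Agent.Helper343_Dio
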