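import Pool.Agent.Helper343_Dio.Ana

set_option autoImplicit false

/-!
The functionals at good approximations of `θ` are nonpositive at `θ`.
-/

namespace Pool.Agent.Helper343_Dio

open Filter Topology Pool.Agent.Helper389_End

variable {κ : Type} [Fintype κ]

theorem Sys.bound_theta (S : Sys κ) (θ : κ → ℝ) (p : κ → ℤ) {N : ℝ} (hN : 0 < N) :
    N * mx (S.D p) θ ≤ S.C * ‖re p‖ * ‖N • θ - re p‖ := by
  have h1 : N • θ = re p + (N • θ - re p) := by abel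
  rw [← mx_smul _ _ hN.le]
  calc mx (S.D p) (N • θ) = mx (S.D p) (re p + (N • θ - re p)) := by rw [← h1]
    _ ≤ mx (S.D p) (re p) + mx (S.D p) (N • θ - re p) := mx_add_le _ _ _
    _ ≤ _ := by
      rw [S.self_D, zero_add]
      exact S.le_D p _

theorem Sys.eventually_D (S : Sys κ) (θ : κ → ℝ) (p : ℕ → κ → ℤ) (N : ℕ → ℝ)
    (hN : Tendsto N atTop atTop) (C₁ : ℝ) (h : ∀ k, N k * ‖N k • θ - re (p k)‖ ≤ C₁) :
    ∀ᶠ k in atTop, mx (S.D (p k)) θ = 0 := by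
  by_contra hcon
  have hfr : ∃ᶠ k in atTop, mx (S.D (p k)) θ ≠ 0 ∧ 1 ≤ N k :=
    (Filter.not_eventually.mp hcon).and_eventually (hN.eventually_ge_atTop 1)
  obtain ⟨φ, hφ, hφP⟩ := extraction_of_frequently_atTop hfr
  -- the subsequence
  have hN' : Tendsto (fun k => N (φ k)) atTop atTop := hN.comp hφ.tendsto_atTop
  let η : ℕ → κ → ℝ := fun k => N (φ k) • θ - re (p (φ k))
  have hη : ∀ k, N (φ k) * ‖η k‖ ≤ C₁ := fun k => h (φ k)
  have hN1 : ∀ k, 1 ≤ N (φ k) := fun k => (hφP k).2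
  have hN0 : ∀ k, 0 < N (φ k) := fun k => by linarith [hN1 k]
  have hpos : ∀ k, 0 < mx (S.D (p (φ k))) θ := fun k =>
    lt_of_le_of_ne (mx_nonneg _ _) (Ne.symm (hφP k).1)
  have hC := S.C_nonneg
  have hη0 : ∀ k, 0 < ‖η k‖ := by
    intro k
    by_contra h0
    have h1 : ‖η k‖ = 0 := le_antisymm (not_lt.mp h0) (norm_nonneg _)
    have h2 := S.bound_theta θ (p (φ k)) (hN0 k)
    change _ ≤ _ * ‖η k‖ at h2
    rw [h1, mul_zero] at h2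
    have := mul_pos (hN0 k) (hpos k)
    linarith
  have hC₁ : 0 ≤ C₁ := le_trans (mul_nonneg (hN0 0).le (norm_nonneg _)) (hη 0)
  have hηC : ∀ k, ‖η k‖ ≤ C₁ := fun k =>
    le_trans (le_mul_of_one_le_left (norm_nonneg _) (hN1 k)) (hη k)
  let M : ℝ := S.C * (‖θ‖ + C₁)
  have hp : ∀ k, ‖re (p (φ k))‖ ≤ N (φ k) * (‖θ‖ + C₁) := by
    intro k
    have e1 : re (p (φ k)) = N (φ k) • θ - η k := by
      change _ = _ - (_ - _)
      abel
    rw [e1]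
    refine (norm_sub_le _ _).trans ?_
    rw [norm_smul, Real.norm_eq_abs, abs_of_pos (hN0 k), mul_add]
    refine add_le_add_right ?_ _
    exact (hηC k).trans (le_mul_of_one_le_left hC₁ (hN1 k))
  let ρ : ℕ → ℝ := fun k => mx (S.D (p (φ k))) θ / ‖η k‖
  have hρ : ∀ k, ρ k ∈ Set.Icc 0 M := by
    intro k
    refine ⟨div_nonneg (mx_nonneg _ _) (norm_nonneg _), ?_⟩
    rw [div_le_iff₀ (hη0 k)]
    have h2 := S.bound_theta θ (p (φ k)) (hN0 k)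
    change _ ≤ _ * ‖η k‖ at h2
    have h3 : S.C * ‖re (p (φ k))‖ * ‖η k‖ ≤ S.C * (N (φ k) * (‖θ‖ + C₁)) * ‖η k‖ :=
      mul_le_mul_of_nonneg_right (mul_le_mul_of_nonneg_left (hp k) hC) (norm_nonneg _)
    have h4 : S.C * (N (φ k) * (‖θ‖ + C₁)) * ‖η k‖ = N (φ k) * (M * ‖η k‖) := by
      change _ = N (φ k) * (S.C * (‖θ‖ + C₁) * ‖η k‖)
      ring
    exact le_of_mul_le_mul_left (h2.trans (h3.trans h4.le)) (hN0 k)
  let u : ℕ → κ → ℝ := fun k => ‖η k‖⁻¹ • η k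
  have hu : ∀ k, u k ∈ Metric.sphere (0 : κ → ℝ) 1 := by
    intro k
    rw [mem_sphere_zero_iff_norm]
    change ‖‖η k‖⁻¹ • η k‖ = 1
    rw [norm_smul, norm_inv, norm_norm, inv_mul_cancel₀ (hη0 k).ne']
  -- a Cauchy subsequence
  obtain ⟨l, -, ψ, hψ, hlim⟩ := ((isCompact_sphere (0 : κ → ℝ) 1).prod
    (isCompact_Icc (a := (0 : ℝ)) (b := M))).tendsto_subseq (x := fun k => (u k, ρ k))
    fun k => ⟨hu k, hρ k⟩
  -- the choice of ε
  let c₂ : ℝ := 2 * C₁ + 1 + 2 * S.C * (C₁ * ‖θ‖ + C₁ * C₁)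
  have hc₂ : 0 < c₂ := by positivity
  let ε : ℝ := 1 / (2 * c₂)
  have hε : 0 < ε := by positivity
  obtain ⟨K, hK⟩ := Metric.cauchySeq_iff'.mp hlim.cauchySeq ε hε
  let j := ψ K
  have ht0 : Tendsto (fun k => ‖η k‖) atTop (𝓝 0) := by
    have e1 : Tendsto (fun k => C₁ / N (φ k)) atTop (𝓝 0) := hN'.const_div_atTop C₁
    refine squeeze_zero (fun k => norm_nonneg _) (fun k => ?_) e1
    rw [le_div_iff₀ (hN0 k), mul_comm]
    exact hη k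
  have hev1 : ∀ᶠ k in atTop, N (φ j) * ‖η k‖ ≤ N (φ k) * ‖η j‖ := by
    have e1 : Tendsto (fun k => N (φ j) * ‖η k‖) atTop (𝓝 0) := by
      simpa using ht0.const_mul (N (φ j))
    have e2 : Tendsto (fun k => N (φ k) * ‖η j‖) atTop atTop :=
      hN'.atTop_mul_const (hη0 j)
    filter_upwards [e1.eventually_lt_const (zero_lt_one), e2.eventually_ge_atTop 1] with k h1 h2
    linarith
  have hev2 : ∀ᶠ k in atTop, 2 * S.C * ‖re (p (φ j))‖ * (‖η k‖ ^ 2 / ‖η j‖) < ε := by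
    have e1 : Tendsto (fun k => 2 * S.C * ‖re (p (φ j))‖ * (‖η k‖ ^ 2 / ‖η j‖)) atTop (𝓝 0) := by
      have e2 := ((ht0.pow 2).div_const ‖η j‖).const_mul (2 * S.C * ‖re (p (φ j))‖)
      simpa using e2
    exact e1.eventually_lt_const hε
  obtain ⟨m, ⟨hm1, hm2⟩, hmK⟩ := (((hψ.tendsto_atTop.eventually (hev1.and hev2))).and
    (eventually_ge_atTop K)).exists
  let k := ψ m
  have hd := hK m hmK
  have hd1 : dist (u k) (u j) < ε := lt_of_le_of_lt (le_max_left _ _) hd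
  have hd2 : dist (ρ k) (ρ j) < ε := lt_of_le_of_lt (le_max_right _ _) hd
  have hq := S.ineq θ (p (φ k)) (p (φ j)) (hN0 k) (hN0 j) (η k) (η j)
    (by change _ = _ - (_ - _); abel) (by change _ = _ - (_ - _); abel) (hη0 k) (hη0 j) hm1
    (hpos k)
  -- estimate
  have e1 : mx (S.D (p (φ k))) θ = ρ k * ‖η k‖ := (div_mul_cancel₀ _ (hη0 k).ne').symm
  have e2 : mx (S.D (p (φ j))) θ = ρ j * ‖η j‖ := (div_mul_cancel₀ _ (hη0 j).ne').symm
  have e3 : 2 * N (φ k) * (‖η k‖ / ‖η j‖) * mx (S.D (p (φ j))) θ =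
      2 * (N (φ k) * ‖η k‖) * ρ j := by
    rw [e2]
    have := (hη0 j).ne'
    field_simp
  have e4 : 2 * N (φ k) * mx (S.D (p (φ k))) θ = 2 * (N (φ k) * ‖η k‖) * ρ k := by
    rw [e1]
    ring
  have e5 : 2 * (N (φ k) * ‖η k‖) * ρ j - 2 * (N (φ k) * ‖η k‖) * ρ k ≤ 2 * C₁ * ε := by
    rw [Real.dist_eq] at hd2
    have h1 := (abs_lt.mp hd2).1
    have h2 : ρ j - ρ k ≤ ε := by linarith
    have h3 : 0 ≤ N (φ k) * ‖η k‖ := mul_nonneg (hN0 k).le (norm_nonneg _)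
    calc 2 * (N (φ k) * ‖η k‖) * ρ j - 2 * (N (φ k) * ‖η k‖) * ρ k =
        2 * (N (φ k) * ‖η k‖) * (ρ j - ρ k) := by ring
      _ ≤ 2 * (N (φ k) * ‖η k‖) * ε := mul_le_mul_of_nonneg_left h2 (by positivity)
      _ ≤ 2 * C₁ * ε := mul_le_mul_of_nonneg_right (by linarith [hη k]) hε.le
  have e6 : 2 * S.C * (N (φ k) * ‖θ‖ + ‖η k‖) * ‖η k‖ * ‖(‖η j‖⁻¹ • η j) - (‖η k‖⁻¹ • η k)‖ ≤
      2 * S.C * (C₁ * ‖θ‖ + C₁ * C₁) * ε := by
    have h1 : ‖(‖η j‖⁻¹ • η j) - (‖η k‖⁻¹ • η k)‖ ≤ ε := by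
      have : dist (u k) (u j) = ‖(‖η j‖⁻¹ • η j) - (‖η k‖⁻¹ • η k)‖ := by
        rw [dist_comm, dist_eq_norm]
      rw [← this]
      exact hd1.le
    have h2 : (N (φ k) * ‖θ‖ + ‖η k‖) * ‖η k‖ ≤ C₁ * ‖θ‖ + C₁ * C₁ := by
      have a1 : N (φ k) * ‖η k‖ * ‖θ‖ ≤ C₁ * ‖θ‖ :=
        mul_le_mul_of_nonneg_right (hη k) (norm_nonneg _)
      have a2 : ‖η k‖ * ‖η k‖ ≤ C₁ * C₁ := mul_le_mul (hηC k) (hηC k) (norm_nonneg _) hC₁
      nlinarith
    calc 2 * S.C * (N (φ k) * ‖θ‖ + ‖η k‖) * ‖η k‖ * ‖(‖η j‖⁻¹ • η j) - (‖η k‖⁻¹ • η k)‖ =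
        2 * S.C * (((N (φ k) * ‖θ‖ + ‖η k‖) * ‖η k‖) *
          ‖(‖η j‖⁻¹ • η j) - (‖η k‖⁻¹ • η k)‖) := by ring
      _ ≤ 2 * S.C * ((C₁ * ‖θ‖ + C₁ * C₁) * ε) := by
        refine mul_le_mul_of_nonneg_left ?_ (by positivity)
        exact mul_le_mul h2 h1 (norm_nonneg _) (by positivity)
      _ = _ := by ring
  have e7 : c₂ * ε = 1 / 2 := by
    change c₂ * (1 / (2 * c₂)) = 1 / 2
    field_simp
  have e8 : c₂ * ε = 2 * C₁ * ε + ε + 2 * S.C * (C₁ * ‖θ‖ + C₁ * C₁) * ε := by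
    change (2 * C₁ + 1 + 2 * S.C * (C₁ * ‖θ‖ + C₁ * C₁)) * ε = _
    ring
  have hm2' : 2 * S.C * ‖re (p (φ j))‖ * (‖η k‖ ^ 2 / ‖η j‖) < ε := hm2
  rw [e3, e4] at hq
  linarith

theorem Sys.eventually_E (S : Sys κ) (θ : κ → ℝ) (p : ℕ → κ → ℤ) (N : ℕ → ℝ)
    (hN : Tendsto N atTop atTop) (C₁ : ℝ) (h : ∀ k, N k * ‖N k • θ - re (p k)‖ ≤ C₁) :
    ∀ᶠ k in atTop, mx (S.E (p k)) θ = 0 := S.swap.eventually_D θ p N hN C₁ h

/-- vanishing at `θ` gives vanishing at the good approximations -/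
theorem mx_eventually (D : Finset (κ → ℤ)) (θ : κ → ℝ) (hD : mx D θ = 0) (p : ℕ → κ → ℤ)
    (N : ℕ → ℝ) (hN : Tendsto N atTop atTop) (C₁ : ℝ)
    (h : ∀ k, N k * ‖N k • θ - re (p k)‖ ≤ C₁) : ∀ᶠ k in atTop, mx D (re (p k)) = 0 := by
  have ht0 : Tendsto (fun k => ‖N k • θ - re (p k)‖) atTop (𝓝 0) := by
    have e1 : Tendsto (fun k => C₁ / N k) atTop (𝓝 0) := hN.const_div_atTop C₁
    refine squeeze_zero' (Eventually.of_forall fun k => norm_nonneg _) ?_ e1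
    filter_upwards [hN.eventually_gt_atTop 0] with k hk
    rw [le_div_iff₀ hk, mul_comm]
    exact h k
  have key : ∀ d ∈ D, ∀ᶠ k in atTop, ip (re (p k)) d ≤ 0 := by
    intro d hd
    have hd0 : ip θ d ≤ 0 := hD ▸ ip_le_mx hd θ
    have e1 : Tendsto (fun k => ‖N k • θ - re (p k)‖ * ∑ i, |(d i : ℝ)|) atTop (𝓝 0) := by
      simpa using ht0.mul_const (∑ i, |(d i : ℝ)|)
    have e2 : ∀ k, |ip (N k • θ - re (p k)) d| ≤ ‖N k • θ - re (p k)‖ * ∑ i, |(d i : ℝ)| :=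
      fun k => abs_ip_le _ d _ fun i => norm_le_pi_norm (N k • θ - re (p k)) i
    have e3 : ∀ k, ip (re (p k)) d = N k * ip θ d - ip (N k • θ - re (p k)) d := by
      intro k
      rw [ip_sub, ip_smul]
      ring
    filter_upwards [e1.eventually_lt_const zero_lt_one, hN.eventually_gt_atTop 0] with k hk hk0
    have h1 := (abs_le.mp (e2 k)).1
    have h2 : N k * ip θ d ≤ 0 := mul_nonpos_of_nonneg_of_nonpos hk0.le hd0
    have h3 : ip (re (p k)) d < 1 := by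
      rw [e3]
      linarith
    rw [ip_int] at h3 ⊢
    have h4 : ∑ i, p k i * d i < 1 := by exact_mod_cast h3
    have h5 : ∑ i, p k i * d i ≤ 0 := by omega
    exact_mod_cast h5
  filter_upwards [(Filter.eventually_all_finset D).mpr key] with k hk
  exact le_antisymm (mx_le le_rfl hk) (mx_nonneg _ _)

end Pool.Agent.Helper343_Dio
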